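import Pool.Agent.Lib.MP_1a0ddd_nt.LW.QCou

/-! The average number of the square roots of a function. -/

set_option autoImplicit false

namespace Pool.Agent.Lib.MP_1a0ddd_nt.Cpl

open Polynomial Quad LW

/-- a nonzero square has two square roots -/
private theorem card_roots {p : ℕ} [Fact p.Prime] (h2 : (2 : ZMod p) ≠ 0) {v s : ZMod p}
    (hv : v ≠ 0) (hs : v = s ^ 2) : Nat.card {w : ZMod p // w ^ 2 = v} = 2 := by
  classical
  have hs0 : s ≠ 0 := by
    rintro rfl
    exact hv (by rw [hs]; ring)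
  have hne : s ≠ -s := by
    intro h
    have h3 : (2 : ZMod p) * s = 0 := by linear_combination h
    rcases mul_eq_zero.1 h3 with h4 | h4
    · exact h2 h4
    · exact hs0 h4
  rw [Nat.card_eq_fintype_card, Fintype.card_subtype]
  have h1 : (Finset.univ.filter fun w : ZMod p => w ^ 2 = v) = {s, -s} := by
    ext w
    rw [Finset.mem_filter, Finset.mem_insert, Finset.mem_singleton, hs, sq_eq_sq_iff_eq_or_eq_neg]
    exact ⟨fun h => h.2, fun h => ⟨Finset.mem_univ _, h⟩⟩
  rw [h1, Finset.card_pair hne]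

variable (B : Type) [CommRing B] [IsDomain B] [CharZero B] [Algebra.FiniteType ℤ B]

private theorem sum_const_card (d : ℕ) (hd : Algebra.trdeg ℤ B = (d : Cardinal)) (D : B)
    (hD : D ≠ 0) (c : ℕ) (f : (p : ℕ) → (B →+* ZMod p) → ℕ)
    (hf : ∀ p : ℕ, p.Prime → ∀ u : B →+* ZMod p, u D ≠ 0 → f p u = c) :
    TauMean (fun p => (∑ᶠ u : {u : B →+* ZMod p // u D ≠ 0}, (f p u.1 : ℝ)) / (p : ℝ) ^ d)
      (c : ℝ) := by
  have h1 := (langWeil B d hd D hD).const_mul (c : ℝ)
  rw [mul_one] at h1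
  refine h1.congr' 0 fun p _ hp => ?_
  have : Fact p.Prime := ⟨hp⟩
  have hfin : Finite (B →+* ZMod p) := Quad.finite_hom B p
  have := Fintype.ofFinite {u : B →+* ZMod p // u D ≠ 0}
  rw [finsum_eq_sum_of_fintype, Finset.sum_congr rfl fun u _ => by rw [hf p hp u.1 u.2],
    Finset.sum_const, Finset.card_univ, nsmul_eq_mul, Nat.card_eq_fintype_card]
  ring

open Classical in
/-- Proof: `h = 0`: one root, `langWeil`. `h ≠ 0` a square in the fraction field, `q² h = g²`: take
`D₀ = 2 q g`; the roots of `u(h)` are `± u(g)/u(q)`, two for odd `p`; `langWeil`. `h` not a square: the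
sum is the number of the `σ : SqrtRing h → F_p` with `σ(D) ≠ 0`, `langWeil_sqrt` (`D ≠ 0` in
`SqrtRing h`); compare `Quad/Count2.lean`, `Count3.lean`, `Count4.lean`. -/
theorem avg_sqrt (d : ℕ) (hd : Algebra.trdeg ℤ B = (d : Cardinal)) (h : B) :
    ∃ D₀ : B, D₀ ≠ 0 ∧ ∀ D : B, D ≠ 0 → D₀ ∣ D →
      TauMean (fun p => (∑ᶠ u : {u : B →+* ZMod p // u D ≠ 0},
        (Nat.card {w : ZMod p // w ^ 2 = u.1 h} : ℝ)) / (p : ℝ) ^ d)
        (if h ≠ 0 ∧ IsSquare (algebraMap B (FractionRing B) h) then 2 else 1) := by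
  by_cases h0 : h = 0
  · subst h0
    refine ⟨1, one_ne_zero, fun D hD _ => ?_⟩
    rw [if_neg fun h => h.1 rfl]
    have h1 := sum_const_card B d hd D hD 1 (fun p u => Nat.card {w : ZMod p // w ^ 2 = u 0})
      fun p hp u _ => by
        have : Fact p.Prime := ⟨hp⟩
        rw [map_zero, Nat.card_eq_one_iff_unique]
        refine ⟨⟨fun a b => Subtype.ext ?_⟩, ⟨⟨0, by ring⟩⟩⟩
        rw [pow_eq_zero_iff two_ne_zero |>.1 a.2, pow_eq_zero_iff two_ne_zero |>.1 b.2]
    rw [Nat.cast_one] at h1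
    exact h1
  by_cases hsq : IsSquare (algebraMap B (FractionRing B) h)
  · obtain ⟨v, hv⟩ := hsq
    obtain ⟨g, q, hq, rfl⟩ := IsFractionRing.div_surjective (A := B) v
    have hq0 : q ≠ 0 := nonZeroDivisors.ne_zero hq
    have hinj : Function.Injective (algebraMap B (FractionRing B)) :=
      IsFractionRing.injective B (FractionRing B)
    have hq1 : algebraMap B (FractionRing B) q ≠ 0 := by
      rw [Ne, IsFractionRing.to_map_eq_zero_iff]
      exact hq0
    have hrel : q ^ 2 * h = g ^ 2 := by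
      apply hinj
      rw [map_mul, map_pow, map_pow, hv]
      field_simp
    have h20 : (2 : B) ≠ 0 := two_ne_zero
    refine ⟨2 * q * h, mul_ne_zero (mul_ne_zero h20 hq0) h0, fun D hD hdvd => ?_⟩
    rw [if_pos ⟨h0, ⟨_, hv⟩⟩]
    have h1 := sum_const_card B d hd D hD 2 (fun p u => Nat.card {w : ZMod p // w ^ 2 = u h})
      fun p hp u hu => by
        have : Fact p.Prime := ⟨hp⟩
        obtain ⟨k, rfl⟩ := hdvd
        rw [map_mul, map_mul, map_mul] at hu
        have h3 := left_ne_zero_of_mul hu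
        have h4 : u h ≠ 0 := right_ne_zero_of_mul h3
        have h5 : u q ≠ 0 := right_ne_zero_of_mul (left_ne_zero_of_mul h3)
        have h6 : (2 : ZMod p) ≠ 0 := by
          have h7 := left_ne_zero_of_mul (left_ne_zero_of_mul h3)
          rwa [map_ofNat] at h7
        have h8 : u q ^ 2 * u h = u g ^ 2 := by
          rw [← map_pow, ← map_mul, hrel, map_pow]
        refine card_roots h6 h4 (s := u g / u q) ?_
        rw [div_pow, ← h8]
        field_simp
    rw [Nat.cast_ofNat] at h1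
    exact h1
  · refine ⟨1, one_ne_zero, fun D hD _ => ?_⟩
    rw [if_neg fun h => hsq h.2]
    have hu := langWeil_sqrt B d hd h hsq
    have hne : AdjoinRoot.of (X ^ 2 - C h : B[X]) D ≠ 0 := by
      have hdeg : (X ^ 2 - C h : B[X]).degree ≠ 0 := by
        rw [degree_X_pow_sub_C two_pos]
        norm_num
      intro h1
      exact hD (AdjoinRoot.of.injective_of_degree_ne_zero hdeg (h1.trans (map_zero _).symm))
    have h1 := (show TauMean (fun p => (Nat.card {ζ : AdjoinRoot (X ^ 2 - C h : B[X]) →+* ZMod p //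
      ζ (AdjoinRoot.of (X ^ 2 - C h : B[X]) D) ≠ 0} : ℝ) / (p : ℝ) ^ d) 1 from
        hu (AdjoinRoot.of (X ^ 2 - C h : B[X]) D) hne)
    refine h1.congr' 0 fun p _ hp => ?_
    have : Fact p.Prime := ⟨hp⟩
    have hfin : Finite (B →+* ZMod p) := Quad.finite_hom B p
    have := Fintype.ofFinite {u : B →+* ZMod p // u D ≠ 0}
    rw [card_adj B (X ^ 2 - C h : B[X]) D p, finsum_eq_sum_of_fintype, finsum_eq_sum_of_fintype]
    push_cast
    congr 1
    refine Finset.sum_congr rfl fun u _ => ?_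
    congr 1
    refine Nat.card_congr (Equiv.subtypeEquivRight fun w => ?_)
    rw [Polynomial.map_sub, Polynomial.map_pow, map_X, map_C, eval_sub, eval_pow, eval_X, eval_C,
      sub_eq_zero]

end Pool.Agent.Lib.MP_1a0ddd_nt.Cpl
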