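import Pool.Agent.Lib.MP_1a0ddd_nt.Cpl.Defs
import Pool.Agent.Lib.MP_1a0ddd_nt.Cpl.AvgA
import Pool.Agent.Lib.MP_1a0ddd_nt.Hyp.HDef

/-! The average number of the points at infinity. -/

set_option autoImplicit false

namespace Pool.Agent.Lib.MP_1a0ddd_nt.Cpl

open Polynomial Quad LW

private theorem ft_poly (R : Type) [CommRing R] [Algebra.FiniteType ℤ R] :
    @Algebra.FiniteType ℤ R[X] _ _ (Ring.toIntAlgebra R[X]) := by
  have h1 : Algebra.FiniteType ℤ R[X] :=
    Algebra.FiniteType.trans (S := R) inferInstance inferInstance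
  have h2 : ∀ a : Algebra ℤ R[X], @Algebra.FiniteType ℤ R[X] _ _ a →
      @Algebra.FiniteType ℤ R[X] _ _ (Ring.toIntAlgebra R[X]) := by
    intro a ha
    have e : a = Ring.toIntAlgebra R[X] := Subsingleton.elim _ _
    rw [← e]
    exact ha
  exact h2 _ h1

private theorem trdeg_poly (R : Type) [CommRing R] [IsDomain R] [CharZero R] (d : ℕ)
    (h : Algebra.trdeg ℤ R = (d : Cardinal)) :
    @Algebra.trdeg ℤ R[X] _ _ (Ring.toIntAlgebra R[X]) = ((d + 1 : ℕ) : Cardinal) := by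
  have h3 : FaithfulSMul ℤ R :=
    (faithfulSMul_iff_algebraMap_injective ℤ R).2 (RingHom.injective_int (algebraMap ℤ R))
  have h1 := _root_.trdeg_add_eq ℤ R (A := R[X])
  rw [h, Polynomial.trdeg_of_isDomain] at h1
  have h2 : ∀ a : Algebra ℤ R[X],
      ((d + 1 : ℕ) : Cardinal) = @Algebra.trdeg ℤ R[X] _ _ a →
      @Algebra.trdeg ℤ R[X] _ _ (Ring.toIntAlgebra R[X]) = ((d + 1 : ℕ) : Cardinal) := by
    intro a ha
    have e : a = Ring.toIntAlgebra R[X] := Subsingleton.elim _ _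
    rw [← e]
    exact ha.symm
  have h4 : ((d + 1 : ℕ) : Cardinal) = Algebra.trdeg ℤ R[X] := by
    push_cast
    exact h1
  exact h2 _ h4

private theorem finite_hom_poly (R : Type) [CommRing R] [Algebra.FiniteType ℤ R] (p : ℕ)
    [Fact p.Prime] : Finite (R[X] →+* ZMod p) :=
  @finite_hom R[X] _ (ft_poly R) p _

/-- the identity `curveTrace = fibreTrace + 1 - #{w}` on the average -/
private theorem mean_complete (R : Type) [CommRing R] [Algebra.FiniteType ℤ R] (d : ℕ)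
    (F : R[X][X]) (r : ℤ) (D : R[X]) (hm1 : TauMean (traceAvg F D (d + 1)) (-(r : ℝ)))
    (hm3 : TauMean (fun p => (Nat.card {z : R[X] →+* ZMod p // z D ≠ 0} : ℝ) /
      (p : ℝ) ^ (d + 1)) 1) (v : ℝ)
    (hv : TauMean (fun p => (∑ᶠ u : {u : R[X] →+* ZMod p // u D ≠ 0},
      (Nat.card {w : ZMod p // w ^ 2 = u.1 (topC F)} : ℝ)) / (p : ℝ) ^ (d + 1)) v) :
    TauMean (traceMean F D (d + 1)) (-(r : ℝ) + 1 - v) := by
  refine ((hm1.add hm3).sub hv).congr' 0 fun p _ hp => ?_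
  have hfact : Fact p.Prime := ⟨hp⟩
  have hfin : Finite (R[X] →+* ZMod p) := finite_hom_poly R p
  have hft : Fintype {u : R[X] →+* ZMod p // u D ≠ 0} := Fintype.ofFinite _
  unfold traceMean traceAvg
  rw [finsum_eq_sum_of_fintype, finsum_eq_sum_of_fintype, finsum_eq_sum_of_fintype,
    Nat.card_eq_fintype_card, ← add_div, ← sub_div]
  congr 1
  have hc : (Fintype.card {u : R[X] →+* ZMod p // u D ≠ 0} : ℝ) =
      ∑ _u : {u : R[X] →+* ZMod p // u D ≠ 0}, (1 : ℝ) := by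
    rw [Finset.sum_const, Finset.card_univ, nsmul_eq_mul, mul_one]
  rw [hc, ← Finset.sum_add_distrib, ← Finset.sum_sub_distrib]
  refine Finset.sum_congr rfl fun u _ => ?_
  unfold curveTrace fibreTrace
  push_cast
  ring

/-- Proof: for a prime `p` the set of the `u` is finite, `curveTrace = fibreTrace + 1 - #{w}`; the mean of
the number of the `u` divided by `p^(d+1)` is one (`langWeil` for `R[X]`,
`Polynomial` has transcendence degree `d + 1`), and `avg_sqrt` for `B = R[X]`, `h = topC F`. -/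
theorem limit_complete (R : Type) [CommRing R] [IsDomain R] [CharZero R] [Algebra.FiniteType ℤ R]
    (d : ℕ) (hd : Algebra.trdeg ℤ R = (d : Cardinal)) (F : R[X][X]) (r : ℤ)
    (h : Hyp.NagaoLimit F (d + 1) r) :
    Cpl.NagaoLimit F (d + 1) (r + open Classical in
      if topC F ≠ 0 ∧ IsSquare (algebraMap R[X] (FractionRing R[X]) (topC F)) then 1 else 0) := by
  classical
  obtain ⟨D₁, hD₁, h1⟩ := h
  obtain ⟨D₂, hD₂, h2⟩ := @avg_sqrt R[X] _ _ _ (ft_poly R) (d + 1) (trdeg_poly R d hd) (topC F)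
  refine ⟨D₁ * D₂, mul_ne_zero hD₁ hD₂, fun D hD hdvd => ?_⟩
  have hm1 := h1 D hD (dvd_of_mul_right_dvd hdvd)
  have hm2 := h2 D hD (dvd_of_mul_left_dvd hdvd)
  have hm3 : TauMean (fun p => (Nat.card {z : R[X] →+* ZMod p // z D ≠ 0} : ℝ) /
      (p : ℝ) ^ (d + 1)) 1 :=
    @langWeil R[X] _ _ _ (ft_poly R) (d + 1) (trdeg_poly R d hd) D hD
  have hkey : ∀ v w : ℝ, TauMean (fun p => (∑ᶠ u : {u : R[X] →+* ZMod p // u D ≠ 0},
      (Nat.card {w : ZMod p // w ^ 2 = u.1 (topC F)} : ℝ)) / (p : ℝ) ^ (d + 1)) v →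
      -(r : ℝ) + 1 - v = w → TauMean (traceMean F D (d + 1)) w := by
    intro v w hv hw
    rw [← hw]
    exact mean_complete R d F r D hm1 hm3 v hv
  by_cases hc : topC F ≠ 0 ∧ IsSquare (algebraMap R[X] (FractionRing R[X]) (topC F))
  · rw [if_pos hc] at hm2
    rw [if_pos hc]
    exact hkey 2 _ hm2 (by push_cast; ring)
  · rw [if_neg hc] at hm2
    rw [if_neg hc]
    exact hkey 1 _ hm2 (by push_cast; ring)

end Pool.Agent.Lib.MP_1a0ddd_nt.Cpl
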