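import Pool.Agent.Lib.MP_1a0ddd_nt.Cpl.Rev

/-! The function field in the chart at infinity. -/

set_option autoImplicit false

namespace Pool.Agent.Lib.MP_1a0ddd_nt.Cpl

open Polynomial Quad

variable {K : Type} [Field K]

/-- the constants in the function field -/
private noncomputable def kcst (F : K[X]) (E : Type) [Field E] [Algebra (QR F) E] : K →+* E :=
  ((algebraMap (QR F) E).comp (em F)).comp C

private theorem eval₂_kcst (F : K[X]) (E : Type) [Field E] [Algebra (QR F) E] (f : K[X]) :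
    eval₂ (kcst F E) (algebraMap (QR F) E (em F X)) f = algebraMap (QR F) E (em F f) := by
  have h : eval₂RingHom (kcst F E) (algebraMap (QR F) E (em F X)) =
      (algebraMap (QR F) E).comp (em F) := by
    apply Polynomial.ringHom_ext
    · intro a
      simp [kcst]
    · simp
  exact congrArg (fun φ : K[X] →+* E => φ f) h

private theorem refl_eq {E : Type} [Field E] (i : K →+* E) {x : E} (hx : x ≠ 0) (N : ℕ) (f : K[X])
    (hf : f.natDegree ≤ N) : eval₂ i x⁻¹ (f.reflect N) * x ^ N = eval₂ i x f := by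
  let _ := invertibleOfNonzero hx
  have h := eval₂_reflect_mul_pow i x N f hf
  rwa [invOf_eq_inv] at h

/-- The second chart: `s = 1/x`, `w = y/x^(g+1)`. Proof: `AdjoinRoot.lift` of
`eval₂ (constants) (1/x)` (`eval₂_reflect_mul_pow`); injective: an element `u + v w` (`rep`) with image
zero has norm `u² - v² rev F` with image zero, and `x` is transcendental over the constants;
fractions: the image contains `1/x` and `y/x^(g+1)`, whose quotients generate. -/
theorem chart {F : K[X]} (hs : Squarefree F) (hp : 0 < F.natDegree) (E : Type) [Field E]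
    [Algebra (QR F) E] [IsFractionRing (QR F) E] :
    ∃ ψ : QR (rev F) →+* E, Function.Injective ψ ∧
      (∀ k : K, ψ (em (rev F) (C k)) = algebraMap (QR F) E (em F (C k))) ∧
      ψ (em (rev F) X) * algebraMap (QR F) E (em F X) = 1 ∧
      ψ (yy (rev F)) * algebraMap (QR F) E (em F X) ^ ((F.natDegree + 1) / 2) =
        algebraMap (QR F) E (yy F) ∧
      ∀ e : E, ∃ a b : QR (rev F), b ≠ 0 ∧ e * ψ b = ψ a := by
  have hιinj : Function.Injective (algebraMap (QR F) E) := IsFractionRing.injective (QR F) E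
  have hx : algebraMap (QR F) E (em F X) ≠ 0 := by
    rw [Ne, map_eq_zero_iff _ hιinj, map_eq_zero_iff _ (em_injective F)]
    exact X_ne_zero
  have hF : F.natDegree ≤ 2 * ((F.natDegree + 1) / 2) := by omega
  have hy2 : algebraMap (QR F) E (yy F) ^ 2 = algebraMap (QR F) E (em F F) := by
    rw [← map_pow, yy_sq]
  have hrev := refl_eq (kcst F E) hx _ F hF
  rw [eval₂_kcst] at hrev
  generalize hNdef : (F.natDegree + 1) / 2 = N at *
  have hrevd : rev F = F.reflect (2 * N) := by rw [rev, hNdef]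
  rw [← hrevd] at hrev
  generalize hxd : algebraMap (QR F) E (em F X) = x at *
  have hinj0 : ∀ f : K[X], eval₂ (kcst F E) x⁻¹ f = 0 → f = 0 := by
    intro f hf
    have h1 := refl_eq (kcst F E) hx f.natDegree (f.reflect f.natDegree) (by
      refine (natDegree_reflect_le (p := f) (N := f.natDegree)).trans ?_
      simp)
    rw [reflect_reflect, hf, zero_mul, ← hxd, eval₂_kcst] at h1
    have h2 := (map_eq_zero_iff _ hιinj).mp h1.symm
    have h3 := (map_eq_zero_iff _ (em_injective F)).mp h2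
    exact reflect_eq_zero_iff.mp h3
  have hlift : eval₂ (eval₂RingHom (kcst F E) x⁻¹) (algebraMap (QR F) E (yy F) / x ^ N)
      (X ^ 2 - C (rev F) : K[X][X]) = 0 := by
    rw [eval₂_sub, eval₂_pow, eval₂_X, eval₂_C, coe_eval₂RingHom, div_pow, hy2, ← hrev,
      ← pow_mul, mul_comm N 2, mul_div_cancel_right₀ _ (pow_ne_zero _ hx), sub_self]
  let ψ : QR (rev F) →+* E := AdjoinRoot.lift (eval₂RingHom (kcst F E) x⁻¹)
    (algebraMap (QR F) E (yy F) / x ^ N) hlift
  have hψem : ∀ f : K[X], ψ (em (rev F) f) = eval₂ (kcst F E) x⁻¹ f := by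
    intro f
    simp only [ψ, AdjoinRoot.lift_of, coe_eval₂RingHom]
  have hψyy : ψ (yy (rev F)) = algebraMap (QR F) E (yy F) / x ^ N := by
    simp only [ψ, AdjoinRoot.lift_root]
  have hψX : ψ (em (rev F) X) = x⁻¹ := by rw [hψem, eval₂_X]
  have hψinj : Function.Injective ψ := by
    rw [injective_iff_map_eq_zero]
    intro a ha
    obtain ⟨u, v, rfl⟩ := rep (rev F) a
    have h1 := congrArg ψ (mul_conj (rev F) u v)
    rw [map_mul, ha, zero_mul, hψem] at h1
    have h2 := sub_eq_zero.mp (hinj0 _ h1.symm)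
    obtain ⟨h3, h4⟩ := norm_zero (rev F)
      (not_isSquare (rev_squarefree hs hp) (rev_natDegree_pos hs hp)) h2
    rw [h3, h4]
    simp
  have hfr : ∀ p : QR F, ∃ (M : ℕ) (a : QR (rev F)), algebraMap (QR F) E p * x⁻¹ ^ M = ψ a := by
    intro p
    obtain ⟨u, v, rfl⟩ := rep F p
    let n := max u.natDegree v.natDegree
    refine ⟨n + N, em (rev F) (u.reflect (n + N)) + em (rev F) (v.reflect n) * yy (rev F), ?_⟩
    have hu := refl_eq (kcst F E) hx (n + N) u
      ((le_max_left _ _ : u.natDegree ≤ n).trans (Nat.le_add_right _ _))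
    have hv := refl_eq (kcst F E) hx n v (le_max_right _ _ : v.natDegree ≤ n)
    have e1 : ∀ f : K[X], eval₂ (kcst F E) x f = algebraMap (QR F) E (em F f) := by
      intro f
      rw [← eval₂_kcst, hxd]
    rw [e1] at hu hv
    rw [map_add, map_mul, map_add, map_mul, hψem, hψem, hψyy, ← hu, ← hv, pow_add, pow_add,
      div_eq_mul_inv, ← inv_pow]
    have e2 : x ^ n * x⁻¹ ^ n = 1 := by rw [← mul_pow, mul_inv_cancel₀ hx, one_pow]
    have e3 : x ^ N * x⁻¹ ^ N = 1 := by rw [← mul_pow, mul_inv_cancel₀ hx, one_pow]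
    generalize eval₂ (kcst F E) x⁻¹ (reflect (n + N) u) = A
    generalize eval₂ (kcst F E) x⁻¹ (reflect n v) = B
    linear_combination (A * x ^ N * x⁻¹ ^ N + B * algebraMap (QR F) E (yy F) * x⁻¹ ^ N) * e2 +
      A * e3
  refine ⟨ψ, hψinj, ?_, ?_, ?_, ?_⟩
  · intro k
    rw [hψem, eval₂_C]
    rfl
  · rw [hψX, inv_mul_cancel₀ hx]
  · rw [hψyy, div_mul_cancel₀ _ (pow_ne_zero _ hx)]
  · intro e
    obtain ⟨p, q, hq, rfl⟩ := IsFractionRing.div_surjective (A := QR F) e
    have hdom : IsDomain (QR F) := isDomain_QR F (not_isSquare hs hp)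
    have hq0 : algebraMap (QR F) E q ≠ 0 := by
      rw [Ne, map_eq_zero_iff _ hιinj]
      exact nonZeroDivisors.ne_zero hq
    obtain ⟨m, a, ha⟩ := hfr p
    obtain ⟨m', b, hb⟩ := hfr q
    refine ⟨a * em (rev F) X ^ m', b * em (rev F) X ^ m, ?_, ?_⟩
    · intro h
      have h1 := congrArg ψ h
      rw [map_mul, map_pow, hψX, ← hb, map_zero] at h1
      have : algebraMap (QR F) E q * x⁻¹ ^ m' * x⁻¹ ^ m ≠ 0 :=
        mul_ne_zero (mul_ne_zero hq0 (pow_ne_zero _ (inv_ne_zero hx))) (pow_ne_zero _ (inv_ne_zero hx))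
      exact this h1
    · rw [map_mul, map_mul, map_pow, map_pow, hψX, ← hb, ← ha]
      field_simp

end Pool.Agent.Lib.MP_1a0ddd_nt.Cpl
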