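import Pool.Agent.Lib.MP_1a0ddd_nt.Cpl.Plc

/-! The divisor class group of the complete curve and the affine one. -/

set_option autoImplicit false

namespace Pool.Agent.Lib.MP_1a0ddd_nt.Cpl

open IsDedekindDomain Module Hyp

variable {K E : Type} [Field K] [Field E]

/-- the constants -/
def cstE (ι : K →+* E) : Submodule ℤ (Additive Eˣ) :=
  AddSubgroup.toIntSubmodule (Subgroup.toAddSubgroup (Units.map (ι : K →* E)).range)

private theorem cc_range (ι : K →+* E) (ν : Place ι → Additive Eˣ →ₗ[ℤ] ℤ)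
    (hν : ∀ V, IsOrd V.1 (ν V)) (hfin : ∀ g, {V | ν V g ≠ 0}.Finite) :
    AddSubgroup.closure {D : Place ι →₀ ℤ | ∃ f : E, f ≠ 0 ∧ IsDiv ι f D} =
      (LinearMap.range (divL ν hfin)).toAddSubgroup := by
  have h0 : {D : Place ι →₀ ℤ | ∃ f : E, f ≠ 0 ∧ IsDiv ι f D} =
      ((LinearMap.range (divL ν hfin)).toAddSubgroup : Set (Place ι →₀ ℤ)) := by
    ext D
    constructor
    · rintro ⟨f, hf, hD⟩
      refine ⟨Additive.ofMul (Units.mk0 f hf), ?_⟩
      ext V
      exact ((isDiv_iff ι ν hν (Units.mk0 f hf) D).1 hD V).symm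
    · rintro ⟨u, rfl⟩
      exact ⟨_, (Additive.toMul u).ne_zero,
        (isDiv_iff ι ν hν (Additive.toMul u) _).2 fun V => rfl⟩
  rw [h0, AddSubgroup.closure_eq]

/-- Proof: by `isDiv_iff` the principal divisors are the range of `divL ν h.fin` (the set is already a
subgroup), and the kernel of `divL ν h.fin` modulo the constants is zero by `hker`. -/
theorem clGp_rank (ι : K →+* E) (ν : Place ι → Additive Eˣ →ₗ[ℤ] ℤ) (hν : ∀ V, IsOrd V.1 (ν V))
    (n : ℤ) (h : Chi ν (cstE ι) n)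
    (hker : ∀ f : Eˣ, (∀ V : Place ι, ν V (Additive.ofMul f) = 0) →
      Additive.ofMul f ∈ cstE ι) :
    Module.Finite ℤ (ClGp ι) ∧ (finrank ℤ (ClGp ι) : ℤ) = n := by
  let π : (Place ι →₀ ℤ) →ₗ[ℤ] ClGp ι := (QuotientAddGroup.mk' _).toIntLinearMap
  have hπ : Function.Surjective π := QuotientAddGroup.mk'_surjective _
  have hk : LinearMap.ker π = LinearMap.range (divL ν h.fin) := by
    ext D
    have h1 : π D = 0 ↔ D ∈ AddSubgroup.closure {D : Place ι →₀ ℤ | ∃ f : E, f ≠ 0 ∧ IsDiv ι f D} :=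
      QuotientAddGroup.eq_zero_iff D
    rw [LinearMap.mem_ker, h1, cc_range ι ν hν h.fin]
    rfl
  let e : ((Place ι →₀ ℤ) ⧸ LinearMap.range (divL ν h.fin)) ≃ₗ[ℤ] ClGp ι :=
    (Submodule.quotEquivOfEq _ _ hk.symm).trans (LinearMap.quotKerEquivOfSurjective π hπ)
  have htop : (cstE ι).comap (LinearMap.ker (divL ν h.fin)).subtype = ⊤ := by
    refine top_unique fun u _ => ?_
    refine hker (Additive.toMul u.1) fun V => ?_
    exact DFunLike.congr_fun (LinearMap.mem_ker.1 u.2) V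
  have h2 : finrank ℤ (LinearMap.ker (divL ν h.fin) ⧸
      (cstE ι).comap (LinearMap.ker (divL ν h.fin)).subtype) = 0 := by
    rw [htop]
    exact finrank_zero_of_subsingleton
  have h3 := h.eq
  rw [h2, Nat.cast_zero, sub_zero] at h3
  have := h.fin1
  exact ⟨Module.Finite.equiv e, by rw [← e.finrank_eq]; exact h3⟩

end Pool.Agent.Lib.MP_1a0ddd_nt.Cpl
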