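import Pool.Agent.Lib.MP_1a0ddd_nt.Cpl.Plc

/-! The places of a Dedekind domain. -/

set_option autoImplicit false

namespace Pool.Agent.Lib.MP_1a0ddd_nt.Cpl

open IsDedekindDomain Module Hyp

variable {E : Type} [Field E]

variable (A : Type) [CommRing A] [IsDedekindDomain A] [Algebra A E] [IsFractionRing A E]

variable {A} in
private theorem hgt_val (v : HeightOneSpectrum A) (q : Eˣ) :
    v.valuation E (q : E) = WithZero.exp (-(ordZ A E v (Additive.ofMul q))) := by
  rw [← HeightOneSpectrum.valuationOfNeZero_eq]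
  have h : ordZ A E v (Additive.ofMul q) = -(Multiplicative.toAdd (v.valuationOfNeZero q)) := rfl
  rw [h, neg_neg]
  rfl

variable {A} in
private theorem hgt_isOrd (v : HeightOneSpectrum A) :
    IsOrd (v.valuation E).valuationSubring (ordZ A E v) := by
  constructor
  · obtain ⟨π, hπ⟩ := v.valuation_exists_uniformizer E
    have h0 : π ≠ 0 := by
      rintro rfl
      rw [map_zero] at hπ
      exact WithZero.exp_ne_zero hπ.symm
    refine ⟨Additive.ofMul (Units.mk0 π h0), ?_⟩
    have h1 := hgt_val v (Units.mk0 π h0)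
    rw [Units.val_mk0, hπ] at h1
    have h2 := congrArg WithZero.log h1
    rw [WithZero.log_exp, WithZero.log_exp] at h2
    linarith
  · intro x
    rw [Valuation.mem_valuationSubring_iff, hgt_val, ← WithZero.exp_zero, WithZero.exp_le_exp,
      neg_nonpos]

variable {A} in
/-- the valuation ring of a prime -/
theorem isOrd_height (v : HeightOneSpectrum A) :
    IsOrd (v.valuation E).valuationSubring (ordZ A E v) ∧
      (v.valuation E).valuationSubring ≠ ⊤ ∧
      ∀ a : A, algebraMap A E a ∈ (v.valuation E).valuationSubring := by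
  refine ⟨hgt_isOrd v, ?_, ?_⟩
  · intro htop
    obtain ⟨ϖ, hϖ⟩ := (hgt_isOrd (E := E) v).one
    have h1 : 0 ≤ ordZ A E v (-ϖ) := by
      have h2 := ((hgt_isOrd (E := E) v).mem (Additive.toMul (-ϖ))).1 (by
        rw [htop]
        exact ValuationSubring.mem_top _)
      exact h2
    rw [map_neg, hϖ] at h1
    omega
  · intro a
    rw [Valuation.mem_valuationSubring_iff]
    exact v.valuation_le_one a

private theorem hgt_core (V : ValuationSubring E) (hV : V ≠ ⊤)
    (hB : ∀ b : A, algebraMap A E b ∈ V) :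
    ∃ P : HeightOneSpectrum A, (∀ b, b ∈ P.asIdeal ↔ algebraMap A E b ∈ V.nonunits) ∧
      V = (P.valuation E).valuationSubring := by
  have hmem : ∀ b : A, b ∈ (IsLocalRing.maximalIdeal V).comap
      ((algebraMap A E).codRestrict V.toSubring hB) ↔ algebraMap A E b ∈ V.nonunits := by
    intro b
    rw [Ideal.mem_comap]
    exact (ValuationSubring.coe_mem_nonunits_iff (A := V)
      (a := (algebraMap A E).codRestrict V.toSubring hB b)).symm
  have hne : (IsLocalRing.maximalIdeal V).comap
      ((algebraMap A E).codRestrict V.toSubring hB) ≠ ⊥ := by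
    intro hbot
    apply hV
    rw [eq_top_iff]
    intro z _
    obtain ⟨a, c, hc, rfl⟩ := IsFractionRing.div_surjective (A := A) z
    rw [div_eq_mul_inv]
    refine V.mul_mem _ _ (hB a) ?_
    by_contra hcon
    have hc0 : c ∈ (IsLocalRing.maximalIdeal V).comap
        ((algebraMap A E).codRestrict V.toSubring hB) := by
      rw [hmem]
      exact (ValuationSubring.mem_nonunits_iff_or _).mpr (Or.inr hcon)
    rw [hbot, Ideal.mem_bot] at hc0
    exact nonZeroDivisors.ne_zero hc hc0
  refine ⟨⟨_, Ideal.comap_isPrime _ _, hne⟩, hmem, ?_⟩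
  rw [← HeightOneSpectrum.valuationSubringAtPrime_eq_valuationSubring]
  symm
  refine ValuationSubring.eq_of_le_of_ne_top _ ?_ hV
  rintro z ⟨a, s, hs, rfl⟩
  refine V.mul_mem _ _ (hB a) ?_
  by_contra hcon
  apply hs
  show s ∈ (IsLocalRing.maximalIdeal V).comap
        ((algebraMap A E).codRestrict V.toSubring hB)
  rw [hmem]
  exact (ValuationSubring.mem_nonunits_iff_or _).mpr (Or.inr hcon)

/-- valuation rings which contain `A`; the proof is `core` in `Nc/Ord.lean` (helper32) -/
theorem exists_height (V : ValuationSubring E) (hV : V ≠ ⊤) (hA : ∀ a : A, algebraMap A E a ∈ V) :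
    ∃ v : HeightOneSpectrum A, IsOrd V (ordZ A E v) ∧
      ∀ a : A, a ∈ v.asIdeal ↔ algebraMap A E a ∈ V.nonunits := by
  obtain ⟨P, h1, h2⟩ := hgt_core A V hV hA
  refine ⟨P, ?_, h1⟩
  rw [h2]
  exact hgt_isOrd P

end Pool.Agent.Lib.MP_1a0ddd_nt.Cpl
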