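import Pool.Agent.Lib.MP_1a0ddd_nt.Cpl.Cls
import Pool.Agent.Lib.MP_1a0ddd_nt.Cpl.Hgt

/-! All places: the places of the affine curve and finitely many others. -/

set_option autoImplicit false

namespace Pool.Agent.Lib.MP_1a0ddd_nt.Cpl

open IsDedekindDomain Module Hyp

variable {K E : Type} [Field K] [Field E]

/-- a finite set of new places and no relations -/
private theorem vert_bot {G X : Type} [AddCommGroup G] (β : X → G →ₗ[ℤ] ℤ) (hX : Finite X) :
    VertRank β ⊥ (Nat.card X) := by
  refine ⟨fun g => Set.toFinite _, ?_⟩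
  rw [Submodule.map_bot]
  have q := Submodule.quotEquivOfEqBot (⊥ : Submodule ℤ (X →₀ ℤ)) rfl
  have : Fintype X := Fintype.ofFinite X
  refine ⟨Module.Finite.equiv q.symm, ?_⟩
  rw [LinearEquiv.finrank_eq q, Module.finrank_finsupp_self, Nat.card_eq_fintype_card]

/-- the constants have the order zero -/
private theorem cst_zero {ι : K →+* E} {V : ValuationSubring E} (hV : ∀ k : K, ι k ∈ V)
    {ν : Additive Eˣ →ₗ[ℤ] ℤ} (hν : IsOrd V ν) {g : Additive Eˣ} (hg : g ∈ cstE ι) :
    ν g = 0 := by
  obtain ⟨k, hk⟩ : ∃ k : Kˣ, Units.map (ι : K →* E) k = Additive.toMul g := hg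
  have h1 : ∀ k : Kˣ, 0 ≤ ν (Additive.ofMul (Units.map (ι : K →* E) k)) := fun k =>
    (hν.mem _).1 (hV k)
  have h2 := h1 k
  have h3 := h1 k⁻¹
  rw [map_inv, ofMul_inv, map_neg] at h3
  rw [hk] at h2 h3
  exact le_antisymm (by simpa using h3) h2

/-- Proof: the places which contain `A` are the primes of `A` (`exists_height`, `isOrd_height`,
`isOrd_inj`, `isOrd_unique`), so the places are the disjoint union of these and of the finite set `S`
of the others: `chi_equiv`, and `chi_iff` with `α` the orders of the primes of `A`, `β` the orders of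
the places in `S`, `E = cstE`, `H = ⊥`; `VertRank β ⊥ S.ncard`. -/
theorem chi_complete (A : Type) [CommRing A] [IsDedekindDomain A] [Algebra A E]
    [IsFractionRing A E] (κ : K →+* A) (n : ℤ)
    (h : Chi (ordZ A E) (cstE ((algebraMap A E).comp κ)) n)
    (ν : Place ((algebraMap A E).comp κ) → Additive Eˣ →ₗ[ℤ] ℤ) (hν : ∀ V, IsOrd V.1 (ν V))
    (hS : {V : Place ((algebraMap A E).comp κ) | ¬ ∀ a : A, algebraMap A E a ∈ V.1}.Finite) :
    Chi ν (cstE ((algebraMap A E).comp κ))
      (n + {V : Place ((algebraMap A E).comp κ) | ¬ ∀ a : A, algebraMap A E a ∈ V.1}.ncard) := by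
  let ι : K →+* E := (algebraMap A E).comp κ
  let S : Set (Place ι) := {V : Place ι | ¬ ∀ a : A, algebraMap A E a ∈ V.1}
  have hSf : Finite S := hS
  let pl : HeightOneSpectrum A → Place ι := fun v =>
    ⟨(v.valuation E).valuationSubring, (isOrd_height (E := E) v).2.1, fun k =>
      (isOrd_height (E := E) v).2.2 (κ k)⟩
  let f : HeightOneSpectrum A ⊕ S → Place ι := Sum.elim pl (fun V => V.1)
  have hf : Function.Bijective f := by
    constructor
    · rintro (v | V) (w | W) hvw
      · have e1 : (v.valuation E).valuationSubring = (w.valuation E).valuationSubring :=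
          congrArg Subtype.val hvw
        have h1 := (isOrd_height (E := E) v).1
        have h2 := (isOrd_height (E := E) w).1
        rw [← e1] at h2
        exact congrArg Sum.inl (ord_ext A E v w (isOrd_unique h1 h2))
      · exact absurd (fun a => by
          have e1 : (v.valuation E).valuationSubring = W.1.1 := congrArg Subtype.val hvw
          rw [← e1]
          exact (isOrd_height (E := E) v).2.2 a) W.2
      · exact absurd (fun a => by
          have e1 : V.1.1 = (w.valuation E).valuationSubring := congrArg Subtype.val hvw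
          rw [e1]
          exact (isOrd_height (E := E) w).2.2 a) V.2
      · exact congrArg Sum.inr (Subtype.ext hvw)
    · intro V
      by_cases hV : ∀ a : A, algebraMap A E a ∈ V.1
      · obtain ⟨v, hv, -⟩ := exists_height A V.1 V.2.1 hV
        exact ⟨Sum.inl v, Subtype.ext (isOrd_inj (isOrd_height (E := E) v).1 hv)⟩
      · exact ⟨Sum.inr ⟨V, hV⟩, rfl⟩
  let e : HeightOneSpectrum A ⊕ S ≃ Place ι := Equiv.ofBijective f hf
  have he : ∀ i, Sum.elim (ordZ A E) (fun V : S => ν V.1) i = ν (e i) := by
    rintro (v | V)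
    · exact isOrd_unique (isOrd_height (E := E) v).1 (hν (pl v))
    · rfl
  have hcard : (S.ncard : ℤ) = (Nat.card S : ℤ) := rfl
  change Chi ν (cstE ι) (n + (S.ncard : ℤ))
  rw [hcard]
  rw [← chi_equiv e (Sum.elim (ordZ A E) (fun V : S => ν V.1)) ν he (cstE ι)]
  rw [chi_iff (ordZ A E) (fun V : S => ν V.1) (cstE ι) ⊥ (fun g hg i => h.triv g hg i)
    (fun g hg V => cst_zero V.1.2.2 (hν V.1) hg)
    (fun g hg i => by rw [(Submodule.mem_bot ℤ).1 hg, map_zero])
    (fun g hg _ => by rw [(Submodule.mem_bot ℤ).1 hg]; exact Submodule.zero_mem _)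
    (Nat.card S) (vert_bot _ hSf)]
  rw [sup_bot_eq, add_sub_cancel_right]
  exact h

end Pool.Agent.Lib.MP_1a0ddd_nt.Cpl
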