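import Pool.Agent.Lib.MP_1a0ddd_nt.Quad.TMean
import Pool.Agent.Lib.MP_1a0ddd_nt.Hyp.HBase

/-! Complete curves: the definitions of the statement of `QuadraticPencils` (no proofs). -/

set_option autoImplicit false

namespace Pool.Agent.Lib.MP_1a0ddd_nt.Cpl

open Polynomial Quad

/-- the coefficient of `F` at `x^(2g+2)`, where the degree of `F` in `x` is `2g+1` or `2g+2` -/
noncomputable def topC {B : Type} [CommRing B] (F : B[X]) : B :=
  F.coeff (2 * ((F.natDegree + 1) / 2))

open Classical in
/-- the number of the closed points of the projective `x`-line at which `F` is a nonzero square (of a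
polynomial in `t`), minus the number of the closed points of the projective `t`-line at which `F` is
a nonzero square (of a polynomial in `x`); `F = a t² + 2 b t + c` is `topC F` at `x = ∞` and `a` at
`t = ∞` -/
noncomputable def jacRank {L : Type} [Field L] (a b c : L[X]) : ℤ :=
  (splitSet a b c).ncard +
      (if topC (quad a b c) ≠ 0 ∧ IsSquare (topC (quad a b c)) then 1 else 0) -
    (Hyp.memSet (quad a b c)).ncard - (if a ≠ 0 ∧ IsSquare a then 1 else 0)

section
variable {K E : Type} [Field K] [Field E]

/-- the closed points of the complete regular curve over the field `K` with the function field `E`: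
the valuation rings of `E` which contain `K`, except `E` itself -/
def Place (ι : K →+* E) : Type := {V : ValuationSubring E // V ≠ ⊤ ∧ ∀ k : K, ι k ∈ V}

/-- `f` has the order `n` at the valuation ring `V`: there is a generator `ϖ` of the maximal ideal of
`V` such that `f` is a unit of `V` times `ϖ^n` -/
def HasOrder (V : ValuationSubring E) (f : E) (n : ℤ) : Prop :=
  ∃ ϖ : E, (∀ x : E, x ∈ V.nonunits ↔ x / ϖ ∈ V) ∧ ∃ w ∈ V.unitGroup, f = w * ϖ ^ n

/-- `D` is the divisor of `f` -/
def IsDiv (ι : K →+* E) (f : E) (D : Place ι →₀ ℤ) : Prop :=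
  ∀ V : Place ι, HasOrder V.1 f (D V)

/-- the divisor class group of the complete curve -/
abbrev ClGp (ι : K →+* E) : Type :=
  (Place ι →₀ ℤ) ⧸ AddSubgroup.closure {D : Place ι →₀ ℤ | ∃ f : E, f ≠ 0 ∧ IsDiv ι f D}

/-- the divisor class group is finitely generated of rank `n` -/
def ClassRank (ι : K →+* E) (n : ℤ) : Prop :=
  Module.Finite ℤ (ClGp ι) ∧ (Module.finrank ℤ (ClGp ι) : ℤ) = n

end

/-- The affine curve `y² = F(x)` over the field `K` is regular (its coordinate ring is a Dedekind
domain), and the divisor class group of the complete regular curve with the same function field is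
finitely generated of rank `r + 1`: the group of the classes of degree zero has rank `r`. -/
def CurveRank {K : Type} [Field K] (F : K[X]) (r : ℤ) : Prop :=
  IsDedekindDomain (CurveRing F) ∧
  ∀ (E : Type) [Field E] [Algebra (CurveRing F) E] [IsFractionRing (CurveRing F) E],
    ClassRank ((algebraMap (CurveRing F) E).comp (curveConst F)) (r + 1)

/-- THE RANK. For every field `L` containing `R` the sets which are counted in `jacRank` are finite and
the curve `y² = a t² + 2 b t + c` over `L(t)` has the rank `jacRank`. -/
def RankOverAll {R : Type} [CommRing R] (a b c : R[X]) : Prop :=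
  ∀ (L : Type) [Field L] (φ : R →+* L), Function.Injective φ →
    (splitSet (a.map φ) (b.map φ) (c.map φ)).Finite ∧
    (Hyp.memSet (quad (a.map φ) (b.map φ) (c.map φ))).Finite ∧
    CurveRank (overLt L (quad (a.map φ) (b.map φ) (c.map φ)))
      (jacRank (a.map φ) (b.map φ) (c.map φ))

/-- Trace of Frobenius of the fibre of the family of complete curves `y² = F(x)` over the point
`u : B → F_p` of `Spec B`: `p + 1` minus the number of points, which are the solutions of
`y² = F_u(x)` and, at infinity, the square roots of the coefficient at `x^(2g+2)`. -/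
noncomputable def curveTrace {B : Type} [CommRing B] (F : B[X]) (p : ℕ) (u : B →+* ZMod p) : ℤ :=
  (p : ℤ) + 1 - Nat.card {P : ZMod p × ZMod p // P.2 ^ 2 = (F.map u).eval P.1} -
    Nat.card {w : ZMod p // w ^ 2 = u (topC F)}

/-- the sum of the traces over the `F_p`-points of the open subset `D ≠ 0` of `Spec B`, divided by
`p^m` -/
noncomputable def traceMean {B : Type} [CommRing B] (F : B[X]) (D : B) (m p : ℕ) : ℝ :=
  (∑ᶠ u : {u : B →+* ZMod p // u D ≠ 0}, (curveTrace F p u.1 : ℝ)) / (p : ℝ) ^ m

/-- THE LIMIT. There is `D₀ ≠ 0` in `R[t]` such that for every `D ≠ 0` in `R[t]` divisible by `D₀` the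
average of the traces over the `F_p`-points of `{D ≠ 0} ⊆ Spec R[t]`, divided by `p^m`, tends in
the Tauberian mean to `-r`. -/
def NagaoLimit {R : Type} [CommRing R] (F : R[X][X]) (m : ℕ) (r : ℤ) : Prop :=
  ∃ D₀ : R[X], D₀ ≠ 0 ∧ ∀ D : R[X], D ≠ 0 → D₀ ∣ D → TauMean (traceMean F D m) (-(r : ℝ))

end Pool.Agent.Lib.MP_1a0ddd_nt.Cpl
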