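import Pool.Agent.Lib.MP_1a0ddd_nt.Cpl.Defs

/-! Squares of polynomials and of rational functions. -/

set_option autoImplicit false

namespace Pool.Agent.Lib.MP_1a0ddd_nt.Cpl

open Polynomial Quad

/-- the degree in `x` does not change -/
theorem topC_overLt {L : Type} [Field L] (G : L[X][X]) :
    topC (overLt L G) = algebraMap L[X] (RatFunc L) (topC G) := by
  unfold topC overLt
  rw [natDegree_map_eq_of_injective (RatFunc.algebraMap_injective L), coeff_map]

/-- the ring of polynomials over a field is integrally closed -/
theorem isSquare_algebraMap {L Q : Type} [Field L] [Field Q] [Algebra L[X] Q]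
    [IsFractionRing L[X] Q] (h : L[X]) : IsSquare (algebraMap L[X] Q h) ↔ IsSquare h := by
  constructor
  · rintro ⟨s, hs⟩
    have hint : IsIntegral L[X] s := by
      refine ⟨X ^ 2 - C h, monic_X_pow_sub_C h two_ne_zero, ?_⟩
      simp only [eval₂_sub, eval₂_X_pow, eval₂_C, hs]
      ring
    obtain ⟨g, hg⟩ := IsIntegrallyClosed.isIntegral_iff.1 hint
    refine ⟨g, ?_⟩
    apply IsFractionRing.injective L[X] Q
    rw [map_mul, hg, hs]
  · rintro ⟨g, hg⟩
    exact ⟨algebraMap L[X] Q g, by rw [hg, map_mul]⟩

/-- a square in the fraction field of `R[t]` is a square over the fraction field of `R`: the fraction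
field of `R[t]` is also the fraction field of `(FractionRing R)[t]`; or directly: `q² h = g²` in
`R[t]`, `q ≠ 0`, then `toF q ∣ toF g` because `(FractionRing R)[t]` is a unique factorization
domain; conversely clear the denominator in `toF h = s²` -/
theorem isSquare_frac {R : Type} [CommRing R] [IsDomain R] (h : R[X]) :
    IsSquare (algebraMap R[X] (FractionRing R[X]) h) ↔ IsSquare (toF h) := by
  have hinj : Function.Injective (toF : R[X] → (FractionRing R)[X]) :=
    map_injective _ (IsFractionRing.injective R (FractionRing R))
  have hinj2 := IsFractionRing.injective R[X] (FractionRing R[X])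
  constructor
  · rintro ⟨s, hs⟩
    obtain ⟨g, q, hq, rfl⟩ := IsFractionRing.div_surjective (A := R[X]) s
    have hq0 : q ≠ 0 := nonZeroDivisors.ne_zero hq
    have hq1 : algebraMap R[X] (FractionRing R[X]) q ≠ 0 := by
      intro h0
      exact hq0 (hinj2 (by rw [h0, map_zero]))
    have key : q * q * h = g * g := by
      apply hinj2
      rw [map_mul, map_mul, map_mul, hs]
      field_simp
    have key2 : toF q * toF q * toF h = toF g * toF g := by
      have := congrArg (toF : R[X] → (FractionRing R)[X]) key
      simpa [toF, Polynomial.map_mul] using this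
    have hq2 : toF q ≠ 0 := by
      intro h0
      exact hq0 (hinj (by rw [h0]; simp [toF]))
    rw [← isSquare_algebraMap (Q := FractionRing (FractionRing R)[X])]
    have hq3 : algebraMap (FractionRing R)[X] (FractionRing (FractionRing R)[X]) (toF q) ≠ 0 := by
      intro h0
      exact hq2 (IsFractionRing.injective (FractionRing R)[X]
        (FractionRing (FractionRing R)[X]) (by rw [h0, map_zero]))
    refine ⟨algebraMap _ _ (toF g) / algebraMap _ _ (toF q), ?_⟩
    rw [div_mul_div_comm, eq_div_iff (mul_ne_zero hq3 hq3), ← map_mul, ← map_mul, ← map_mul,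
      ← key2]
    congr 1
    ring
  · rintro ⟨s, hs⟩
    obtain ⟨b, hb⟩ := IsLocalization.integerNormalization_map_to_map (nonZeroDivisors R) s
    set g := IsLocalization.integerNormalization (nonZeroDivisors R) s with hg
    have hb0 : (b : R) ≠ 0 := nonZeroDivisors.coe_ne_zero b
    have key : C (b : R) * C (b : R) * h = g * g := by
      apply hinj
      have h1 : toF g = C (algebraMap R (FractionRing R) b) * s := by
        have : toF g = (b : R) • s := hb
        rw [this, Algebra.smul_def]
        rfl
      simp only [toF, Polynomial.map_mul, map_C] at h1 hs ⊢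
      rw [h1, hs]
      ring
    have hC : algebraMap R[X] (FractionRing R[X]) (C (b : R)) ≠ 0 := by
      intro h0
      exact hb0 (C_injective (hinj2 (by rw [h0, map_zero, map_zero])))
    refine ⟨algebraMap _ _ g / algebraMap _ _ (C (b : R)), ?_⟩
    rw [div_mul_div_comm, eq_div_iff (mul_ne_zero hC hC)]
    have key3 := congrArg (algebraMap R[X] (FractionRing R[X])) key
    rw [map_mul, map_mul, map_mul] at key3
    rw [← key3]
    ring

end Pool.Agent.Lib.MP_1a0ddd_nt.Cpl
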