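import Pool.Agent.Lib.MP_1a0ddd_nt.Cpl.Rnk
import Pool.Agent.Lib.MP_1a0ddd_nt.Cpl.Avg
import Pool.Agent.Lib.MP_1a0ddd_nt.Cpl.Sq
import Pool.Agent.Lib.MP_1a0ddd_nt.Hyp.Fin

/-! Nagao's statement for all quadratic families of complete curves. -/

set_option autoImplicit false

namespace Pool.Agent.Lib.MP_1a0ddd_nt.Cpl

open Polynomial Quad LW

open Classical in
private theorem jacRank_eq {L : Type} [Field L] (a b c : L[X]) : jacRank a b c =
    Hyp.famRank a b c +
      if topC (quad a b c) ≠ 0 ∧ IsSquare (topC (quad a b c)) then 1 else 0 := by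
  unfold jacRank Hyp.famRank
  split_ifs <;> ring

private theorem map_quad {R S : Type} [CommRing R] [CommRing S] (φ : R →+* S) (a b c : R[X]) :
    quad (a.map φ) (b.map φ) (c.map φ) = (quad a b c).map (mapRingHom φ) := by
  have h : ∀ w : R[X], (w.map φ).map (C : S →+* S[X]) = (w.map C).map (mapRingHom φ) := by
    intro w
    ext n m
    simp [coeff_map, coeff_C]
  unfold quad
  rw [h, h, h]
  simp [Polynomial.map_add, Polynomial.map_mul, Polynomial.map_pow]

private theorem topC_map {R S : Type} [CommRing R] [CommRing S] (φ : R →+* S)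
    (hφ : Function.Injective φ) (F : R[X]) : topC (F.map φ) = φ (topC F) := by
  unfold topC
  rw [natDegree_map_eq_of_injective hφ, coeff_map]

private theorem pos_map {R S : Type} [CommRing R] [CommRing S] (φ : R →+* S)
    (hφ : Function.Injective φ) (F : R[X]) (h : 0 < F.natDegree) : 0 < (F.map φ).natDegree := by
  rwa [natDegree_map_eq_of_injective hφ]

theorem rank_main (R : Type) [CommRing R] [IsDomain R] [CharZero R] (a b c : R[X])
    (h : Hyp.Family a b c) : Cpl.RankOverAll a b c := by
  classical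
  intro L _ φ hφ
  obtain ⟨h1, h2, h3⟩ := Hyp.family_rank R a b c h L φ hφ
  obtain ⟨hL, hB, hpos⟩ := Hyp.base_of_family h L φ hφ
  refine ⟨h1, h2, ?_⟩
  have : CharZero (RatFunc L) := charZero_of_injective_algebraMap
    (algebraMap L (RatFunc L)).injective
  have h4 := rank_complete (toK_squarefree hB)
    (pos_map _ (IsFractionRing.injective L[X] (RatFunc L)) _ hpos) h3
  rw [jacRank_eq]
  have h5 : topC (overLt L (quad (a.map φ) (b.map φ) (c.map φ))) ≠ 0 ∧
      IsSquare (topC (overLt L (quad (a.map φ) (b.map φ) (c.map φ)))) ↔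
      topC (quad (a.map φ) (b.map φ) (c.map φ)) ≠ 0 ∧
      IsSquare (topC (quad (a.map φ) (b.map φ) (c.map φ))) := by
    rw [topC_overLt, isSquare_algebraMap, Ne,
      map_eq_zero_iff _ (IsFractionRing.injective L[X] (RatFunc L))]
  simp only [← h5]
  exact h4

theorem main (R : Type) [CommRing R] [IsDomain R] [CharZero R] [Algebra.FiniteType ℤ R] (d : ℕ)
    (hd : Algebra.trdeg ℤ R = (d : Cardinal)) (a b c : R[X]) (h : Hyp.Family a b c) :
    Cpl.RankOverAll a b c ∧
      Cpl.NagaoLimit (quad a b c) (d + 1) (jacRank (toF a) (toF b) (toF c)) := by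
  classical
  refine ⟨rank_main R a b c h, ?_⟩
  have h1 := limit_complete R d hd (quad a b c) _ (Hyp.family_limit R d hd a b c h)
  rw [jacRank_eq]
  have hinj : Function.Injective (mapRingHom (algebraMap R (FractionRing R))) :=
    map_injective _ (IsFractionRing.injective R (FractionRing R))
  have h5 : topC (quad a b c) ≠ 0 ∧
      IsSquare (algebraMap R[X] (FractionRing R[X]) (topC (quad a b c))) ↔
      topC (quad (toF a) (toF b) (toF c)) ≠ 0 ∧
      IsSquare (topC (quad (toF a) (toF b) (toF c))) := by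
    rw [isSquare_frac, map_quad, topC_map _ hinj, Ne, Ne, map_eq_zero_iff _ hinj]
    rfl
  simp only [← h5]
  exact h1

end Pool.Agent.Lib.MP_1a0ddd_nt.Cpl
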