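import Pool.Agent.Lib.MP_1a0ddd_nt.Quad.Ext2

/-! The primes of `K[s, w]/(w² - P(s))` over `s = 0`. -/

set_option autoImplicit false

namespace Pool.Agent.Lib.MP_1a0ddd_nt.Cpl

open Polynomial Quad IsDedekindDomain Module

variable {K : Type} [Field K]

private theorem X_dvd_sq_sub (ρ P : K[X]) : X ∣ ρ ^ 2 - P ↔ ρ.coeff 0 ^ 2 = P.coeff 0 := by
  rw [X_dvd_iff, coeff_sub, sub_eq_zero, coeff_zero_eq_eval_zero, eval_pow,
    ← coeff_zero_eq_eval_zero]

private theorem X_dvd_sub (ρ ρ' : K[X]) : X ∣ ρ - ρ' ↔ ρ.coeff 0 = ρ'.coeff 0 := by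
  rw [X_dvd_iff, coeff_sub, sub_eq_zero]

private theorem exists_hos {P : K[X]} {Q : Ideal (QR P)} (hQ : Q.IsMaximal) (hm : em P X ∈ Q) :
    ∃ v : HeightOneSpectrum (QR P), v.asIdeal = Q := by
  refine ⟨⟨Q, hQ.isPrime, ?_⟩, rfl⟩
  rintro rfl
  rw [Ideal.mem_bot, map_eq_zero_iff _ (em_injective P)] at hm
  exact X_ne_zero hm

open Classical in
/-- the primes over `s = 0`. Proof: `primes_of_mem` for the irreducible polynomial `X`: if
`P(0) = ρ² ≠ 0` they are the two different ideals `PI P X (C ρ)`, `PI P X (-C ρ)`; if `P(0) = 0` it is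
`PI P X 0`; otherwise `(X)` is maximal (`span_isMaximal`) -/
theorem primes_zero (h2 : (2 : K) ≠ 0) {P : K[X]} (hs : Squarefree P) (hp : 0 < P.natDegree)
    [IsDedekindDomain (QR P)] :
    {v : HeightOneSpectrum (QR P) | em P X ∈ v.asIdeal}.Finite ∧
      {v : HeightOneSpectrum (QR P) | em P X ∈ v.asIdeal}.ncard =
        if P.coeff 0 ≠ 0 ∧ IsSquare (P.coeff 0) then 2 else 1 := by
  have hX : Irreducible (X : K[X]) := irreducible_X
  have hPI : ∀ ρ : K[X], em P X ∈ PI P X ρ := fun ρ => Ideal.subset_span (by simp)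
  by_cases hsq : IsSquare (P.coeff 0)
  · obtain ⟨r, hr⟩ := hsq
    have hd : ∀ c : K, c ^ 2 = P.coeff 0 → X ∣ (C c) ^ 2 - P := by
      intro c hc
      rw [X_dvd_sq_sub, coeff_C_zero, hc]
    have hr1 : r ^ 2 = P.coeff 0 := by rw [hr]; ring
    have hr2 : (-r) ^ 2 = P.coeff 0 := by rw [hr]; ring
    obtain ⟨v1, hv1⟩ := exists_hos (PI_isMaximal hX (hd r hr1)) (hPI _)
    obtain ⟨v2, hv2⟩ := exists_hos (PI_isMaximal hX (hd (-r) hr2)) (hPI _)
    have hset : {v : HeightOneSpectrum (QR P) | em P X ∈ v.asIdeal} = {v1, v2} := by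
      ext v
      simp only [Set.mem_setOf_eq, Set.mem_insert_iff, Set.mem_singleton_iff]
      constructor
      · intro hm
        rcases primes_of_mem hX v.isPrime hm with ⟨ρ, hρ, e⟩ | ⟨h, -⟩
        · rw [X_dvd_sq_sub, ← hr1] at hρ
          rcases sq_eq_sq_iff_eq_or_eq_neg.mp hρ with h | h
          · left
            apply HeightOneSpectrum.ext
            rw [e, hv1]
            exact PI_congr P ((X_dvd_sub _ _).mpr (by rw [coeff_C_zero, h]))
          · right
            apply HeightOneSpectrum.ext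
            rw [e, hv2]
            exact PI_congr P ((X_dvd_sub _ _).mpr (by rw [coeff_C_zero, h]))
        · exact absurd (hd r hr1) (h _)
      · rintro (rfl | rfl)
        · rw [hv1]; exact hPI _
        · rw [hv2]; exact hPI _
    rw [hset]
    refine ⟨Set.toFinite _, ?_⟩
    by_cases h0 : P.coeff 0 = 0
    · have hr0 : r = 0 := by
        rw [h0] at hr1
        exact pow_eq_zero_iff two_ne_zero |>.mp hr1
      have h12 : v1 = v2 := by
        apply HeightOneSpectrum.ext
        rw [hv1, hv2, hr0, neg_zero]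
      rw [h12, Set.pair_eq_singleton, Set.ncard_singleton, if_neg]
      rintro ⟨h, -⟩
      exact h h0
    · have hr0 : r ≠ 0 := by
        rintro rfl
        apply h0
        rw [hr, mul_zero]
      have h12 : v1 ≠ v2 := by
        intro h
        have e : PI P X (C r) = PI P X (C (-r)) := by rw [← hv1, ← hv2, h]
        have hm : em P (-C r) + em P 1 * yy P ∈ PI P X (C r) := by
          rw [mem_PI P (hd r hr1)]
          simp
        rw [e, mem_PI P (hd (-r) hr2), X_dvd_iff] at hm
        simp only [coeff_add, coeff_neg, coeff_C_zero, one_mul] at hm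
        apply hr0
        have h3 : (2 : K) * r = 0 := by linear_combination -hm
        exact (mul_eq_zero.mp h3).resolve_left h2
      rw [Set.ncard_pair h12, if_pos]
      exact ⟨h0, ⟨r, hr⟩⟩
  · have hno : ∀ ρ : K[X], ¬ X ∣ ρ ^ 2 - P := by
      intro ρ hρ
      rw [X_dvd_sq_sub] at hρ
      exact hsq ⟨ρ.coeff 0, by rw [← hρ, sq]⟩
    obtain ⟨v0, hv0⟩ := exists_hos (span_isMaximal hX hno)
      (Ideal.mem_span_singleton_self (em P X))
    have hset : {v : HeightOneSpectrum (QR P) | em P X ∈ v.asIdeal} = {v0} := by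
      ext v
      simp only [Set.mem_setOf_eq, Set.mem_singleton_iff]
      constructor
      · intro hm
        rcases primes_of_mem hX v.isPrime hm with ⟨ρ, hρ, -⟩ | ⟨-, e⟩
        · exact absurd hρ (hno ρ)
        · apply HeightOneSpectrum.ext
          rw [e, hv0]
      · rintro rfl
        rw [hv0]
        exact Ideal.mem_span_singleton_self _
    rw [hset, Set.ncard_singleton, if_neg]
    · exact ⟨Set.finite_singleton _, rfl⟩
    · rintro ⟨-, h⟩
      exact hsq h

end Pool.Agent.Lib.MP_1a0ddd_nt.Cpl
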