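import Pool.Agent.Lib.MP_1a0ddd_nt.Cpl.Hgt
import Pool.Agent.Lib.MP_1a0ddd_nt.Cpl.Chart
import Pool.Agent.Lib.MP_1a0ddd_nt.Cpl.InfA

/-! The places at infinity. -/

set_option autoImplicit false

namespace Pool.Agent.Lib.MP_1a0ddd_nt.Cpl

open Polynomial Quad IsDedekindDomain Module Hyp

variable {K : Type} [Field K]

private theorem inf_contains {E : Type} [Field E] (P : K[X]) (ψ : QR P →+* E)
    (V : ValuationSubring E) (hk : ∀ k : K, ψ (em P (C k)) ∈ V) (hx : ψ (em P X) ∈ V) :
    ∀ a : QR P, ψ a ∈ V := by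
  have h1 : ∀ u : K[X], ψ (em P u) ∈ V := by
    intro u
    induction u using Polynomial.induction_on' with
    | add p q hp hq =>
      rw [map_add, map_add]
      exact V.add_mem _ _ hp hq
    | monomial n a =>
      rw [← C_mul_X_pow_eq_monomial, map_mul, map_mul, map_pow, map_pow]
      exact V.mul_mem _ _ (hk a) (pow_mem hx n)
  have h2 : ψ (yy P) ∈ V := by
    rcases V.mem_or_inv_mem (ψ (yy P)) with h | h
    · exact h
    · by_cases h0 : ψ (yy P) = 0
      · rw [h0]; exact V.zero_mem
      · have h3 : ψ (yy P) * ψ (yy P) = ψ (em P P) := by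
          rw [← map_mul, ← yy_sq P, sq (yy P)]
        have h4 : ψ (yy P) = ψ (em P P) * (ψ (yy P))⁻¹ := (eq_mul_inv_iff_mul_eq₀ h0).2 h3
        rw [h4]
        exact V.mul_mem _ _ (h1 P) h
  intro a
  obtain ⟨u, v, rfl⟩ := rep P a
  rw [map_add, map_mul]
  exact V.add_mem _ _ (h1 u) (V.mul_mem _ _ (h1 v) h2)

private theorem inf_mem_iff {E A : Type} [Field E] [CommRing A] [IsDedekindDomain A] [Algebra A E]
    [IsFractionRing A E] (v : HeightOneSpectrum A) (a : A) :
    a ∈ v.asIdeal ↔ algebraMap A E a ∈ (v.valuation E).valuationSubring.nonunits := by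
  rw [ValuationSubring.mem_nonunits_iff,
    ← (Valuation.isEquiv_iff_val_lt_one.1
      (Valuation.isEquiv_valuation_valuationSubring (v.valuation E))),
    HeightOneSpectrum.valuation_lt_one_iff_mem]

/-- valuation rings over `A` in which `s` is not a unit: the primes which contain `s` -/
private theorem inf_primes {E : Type} [Field E] (A : Type) [CommRing A] [IsDedekindDomain A]
    [Algebra A E] [IsFractionRing A E] (s : A) :
    {V : ValuationSubring E | V ≠ ⊤ ∧ (∀ a : A, algebraMap A E a ∈ V) ∧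
        algebraMap A E s ∈ V.nonunits} =
      (fun v : HeightOneSpectrum A => (v.valuation E).valuationSubring) ''
        {v : HeightOneSpectrum A | s ∈ v.asIdeal} := by
  ext V
  constructor
  · rintro ⟨h1, h2, h3⟩
    obtain ⟨v, hv, hm⟩ := exists_height A V h1 h2
    exact ⟨v, (hm s).2 h3, isOrd_inj (isOrd_height v).1 hv⟩
  · rintro ⟨v, hv, rfl⟩
    exact ⟨(isOrd_height v).2.1, (isOrd_height v).2.2, (inf_mem_iff v s).1 hv⟩

private theorem inf_injective {E : Type} [Field E] (A : Type) [CommRing A] [IsDedekindDomain A]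
    [Algebra A E] [IsFractionRing A E] :
    Function.Injective
      (fun v : HeightOneSpectrum A => (v.valuation E).valuationSubring) := by
  intro v w h
  apply HeightOneSpectrum.ext
  ext a
  rw [inf_mem_iff (E := E) v a, inf_mem_iff (E := E) w a]
  have h' : (v.valuation E).valuationSubring = (w.valuation E).valuationSubring := h
  rw [h']

section

variable {F : K[X]} (E : Type) [Field E] [Algebra (QR F) E] [IsFractionRing (QR F) E]

/-- the constants in the function field -/
noncomputable abbrev io : K →+* E := (algebraMap (QR F) E).comp ((em F).comp C)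

/-- `y² = F(x)` is in `V`, and `V` is integrally closed -/
theorem contains_of_x (V : Place (io (F := F) E)) (hx : algebraMap (QR F) E (em F X) ∈ V.1) :
    ∀ a : QR F, algebraMap (QR F) E a ∈ V.1 :=
  inf_contains F (algebraMap (QR F) E) V.1 (fun k => V.2.2 k) hx

private theorem inf_dedekind (h2 : (2 : K) ≠ 0) (hs : Squarefree F) (hp : 0 < F.natDegree) :
    IsDedekindDomain (QR F) := by
  refine isDedekindDomain_QR ?_ hs (not_isSquare hs hp)
  have h : IsUnit (C (2 : K)) := isUnit_C.2 (isUnit_iff_ne_zero.2 h2)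
  rwa [map_ofNat] at h

/-- the second chart, as a fraction field -/
private theorem inf_chart (h2 : (2 : K) ≠ 0) (hs : Squarefree F) (hp : 0 < F.natDegree) :
    IsDedekindDomain (QR (rev F)) ∧ ∃ _ : Algebra (QR (rev F)) E,
      IsFractionRing (QR (rev F)) E ∧
      (∀ k : K, algebraMap (QR (rev F)) E (em (rev F) (C k)) = algebraMap (QR F) E (em F (C k))) ∧
      algebraMap (QR (rev F)) E (em (rev F) X) * algebraMap (QR F) E (em F X) = 1 := by
  have hD : IsDedekindDomain (QR (rev F)) :=
    inf_dedekind h2 (rev_squarefree hs hp) (rev_natDegree_pos hs hp)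
  refine ⟨hD, ?_⟩
  obtain ⟨ψ, h1, h3, h4, -, h5⟩ := chart hs hp E
  let _ : Algebra (QR (rev F)) E := ψ.toAlgebra
  have hψ : algebraMap (QR (rev F)) E = ψ := rfl
  refine ⟨ψ.toAlgebra, ?_, h3, h4⟩
  refine (isLocalization_iff _ _).2 ⟨?_, ?_, ?_⟩
  · intro y
    rw [hψ]
    exact isUnit_iff_ne_zero.2 fun h =>
      nonZeroDivisors.ne_zero y.2 (h1 (h.trans (map_zero ψ).symm))
  · intro z
    obtain ⟨a, b, hb, hab⟩ := h5 z
    exact ⟨(a, ⟨b, mem_nonZeroDivisors_of_ne_zero hb⟩), hab⟩
  · intro x y hxy
    exact ⟨1, by rw [h1 hxy]⟩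

/-- the places at infinity in the second chart -/
private theorem inf_image [IsDedekindDomain (QR (rev F))] [Algebra (QR (rev F)) E]
    [IsFractionRing (QR (rev F)) E]
    (hk : ∀ k : K, algebraMap (QR (rev F)) E (em (rev F) (C k)) = algebraMap (QR F) E (em F (C k)))
    (hx : algebraMap (QR (rev F)) E (em (rev F) X) * algebraMap (QR F) E (em F X) = 1) :
    (fun V : Place (io (F := F) E) => V.1) ''
        {V : Place (io (F := F) E) | ¬ ∀ a : QR F, algebraMap (QR F) E a ∈ V.1} =
      {V : ValuationSubring E | V ≠ ⊤ ∧ (∀ a : QR (rev F), algebraMap (QR (rev F)) E a ∈ V) ∧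
        algebraMap (QR (rev F)) E (em (rev F) X) ∈ V.nonunits} := by
  have hinv : (algebraMap (QR (rev F)) E (em (rev F) X))⁻¹ = algebraMap (QR F) E (em F X) :=
    inv_eq_of_mul_eq_one_right hx
  have h0 : algebraMap (QR (rev F)) E (em (rev F) X) ≠ 0 := left_ne_zero_of_mul_eq_one hx
  ext V
  constructor
  · rintro ⟨W, hW, rfl⟩
    have h1 : algebraMap (QR F) E (em F X) ∉ W.1 := fun h => hW (contains_of_x E W h)
    have h2 : algebraMap (QR (rev F)) E (em (rev F) X) ∈ W.1.nonunits := by
      rw [ValuationSubring.mem_nonunits_iff_or, hinv]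
      exact Or.inr h1
    refine ⟨W.2.1, ?_, h2⟩
    refine inf_contains (rev F) (algebraMap (QR (rev F)) E) W.1 (fun k => ?_) ?_
    · rw [hk k]
      exact W.2.2 k
    · exact ValuationSubring.nonunits_subset h2
  · rintro ⟨h1, h2, h3⟩
    refine ⟨⟨V, h1, fun k => ?_⟩, ?_, rfl⟩
    · have h4 := h2 (em (rev F) (C k))
      rw [hk k] at h4
      exact h4
    · intro h4
      have h5 : algebraMap (QR F) E (em F X) ∈ V := h4 (em F X)
      rcases (ValuationSubring.mem_nonunits_iff_or _).1 h3 with h | h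
      · exact h0 h
      · rw [hinv] at h
        exact h h5

open Classical in
/-- Proof: by `contains_of_x` these are the places with `x ∉ V`, so `1/x` is not a unit; such a `V`
contains the image of `QR (rev F)` (`chart`, `contains_of_x` for `rev F`, a Dedekind domain with
fraction field `E`), so `exists_height` gives a bijection with the primes of `QR (rev F)` containing
`X`; `primes_zero`, `rev_coeff_zero`. -/
theorem places_inf (h2 : (2 : K) ≠ 0) (hs : Squarefree F) (hp : 0 < F.natDegree) :
    {V : Place (io (F := F) E) | ¬ ∀ a : QR F, algebraMap (QR F) E a ∈ V.1}.Finite ∧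
      {V : Place (io (F := F) E) | ¬ ∀ a : QR F, algebraMap (QR F) E a ∈ V.1}.ncard =
        if topC F ≠ 0 ∧ IsSquare (topC F) then 2 else 1 := by
  obtain ⟨hD, hA, hfr, hk, hx⟩ := inf_chart E h2 hs hp
  have h3 := inf_image E hk hx
  rw [inf_primes (E := E) (QR (rev F)) (em (rev F) X)] at h3
  have h4 := primes_zero h2 (rev_squarefree hs hp) (rev_natDegree_pos hs hp)
  rw [rev_coeff_zero] at h4
  have hi : Function.Injective (fun V : Place (io (F := F) E) => V.1) :=
    fun V W h => Subtype.ext h
  constructor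
  · refine Set.Finite.of_finite_image (f := fun V : Place (io (F := F) E) => V.1) ?_ hi.injOn
    rw [h3]
    exact h4.1.image _
  · have h5 := Set.ncard_image_of_injective
      {V : Place (io (F := F) E) | ¬ ∀ a : QR F, algebraMap (QR F) E a ∈ V.1} hi
    rw [← h5, h3, Set.ncard_image_of_injective _ (inf_injective (E := E) (QR (rev F))), h4.2]

/-- every place has an order function: `exists_height` in one of the two charts -/
theorem places_ord (h2 : (2 : K) ≠ 0) (hs : Squarefree F) (hp : 0 < F.natDegree)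
    (V : Place (io (F := F) E)) : ∃ ν : Additive Eˣ →ₗ[ℤ] ℤ, IsOrd V.1 ν := by
  by_cases hV : ∀ a : QR F, algebraMap (QR F) E a ∈ V.1
  · have := inf_dedekind h2 hs hp
    obtain ⟨v, hv, -⟩ := exists_height (QR F) V.1 V.2.1 hV
    exact ⟨_, hv⟩
  · obtain ⟨hD, hA, hfr, hk, hx⟩ := inf_chart E h2 hs hp
    have h3 := inf_image E hk hx
    have h4 : V.1 ∈ (fun V : Place (io (F := F) E) => V.1) ''
        {V : Place (io (F := F) E) | ¬ ∀ a : QR F, algebraMap (QR F) E a ∈ V.1} := ⟨V, hV, rfl⟩
    rw [h3] at h4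
    obtain ⟨v, hv, -⟩ := exists_height (QR (rev F)) V.1 h4.1 h4.2.1
    exact ⟨_, hv⟩

end

end Pool.Agent.Lib.MP_1a0ddd_nt.Cpl
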