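import Pool.Agent.Lib.MP_1a0ddd_nt.Cpl.Rev
import Pool.Agent.Lib.MP_1a0ddd_nt.Nc.Plx

/-! Functions without poles are constant. -/

set_option autoImplicit false

namespace Pool.Agent.Lib.MP_1a0ddd_nt.Cpl

open Polynomial Quad

/-- polynomials integral over the constants are constant -/
private theorem ker_const {K : Type} [Field K] {w : K[X]}
    (h : (C : K →+* K[X]).IsIntegralElem w) : w.natDegree = 0 := by
  obtain ⟨q, hq, he⟩ := h
  have h1 : q.comp w = 0 := he
  have h2 : (q.comp w).natDegree = 0 := by rw [h1]; simp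
  rw [natDegree_comp, Nat.mul_eq_zero] at h2
  rcases h2 with h2 | h2
  · exfalso
    have h3 : q = 1 := hq.natDegree_eq_zero.mp h2
    rw [h3, one_comp] at h1
    exact one_ne_zero h1
  · exact h2

/-- elements of `QR F` integral over the constants -/
private theorem ker_int {K : Type} [Field K] [CharZero K] {F : K[X]} (hp : 0 < F.natDegree)
    {r : QR F} (h : ((em F).comp C).IsIntegralElem r) : ∃ k : K, em F (C k) = r := by
  have hcj : (conj F).comp ((em F).comp (C : K →+* K[X])) = (em F).comp C := by
    ext k
    simp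
  have hc : ((em F).comp C).IsIntegralElem (conj F r) := by
    obtain ⟨q, hq, he⟩ := h
    refine ⟨q, hq, ?_⟩
    have h1 := congrArg (conj F) he
    rw [hom_eval₂, hcj, map_zero] at h1
    exact h1
  have down : ∀ w : K[X], ((em F).comp C).IsIntegralElem (em F w) → w.natDegree = 0 := by
    intro w hw
    apply ker_const
    obtain ⟨q, hq, he⟩ := hw
    refine ⟨q, hq, ?_⟩
    apply em_injective F
    rw [hom_eval₂, he, map_zero]
  obtain ⟨u, v, rfl⟩ := rep F r
  have h2 : (2 * u).natDegree = 0 := by
    apply down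
    have e : em F (2 * u) = (em F u + em F v * yy F) + conj F (em F u + em F v * yy F) := by
      rw [map_mul, map_ofNat, map_add, map_mul, conj_em, conj_em, conj_yy]
      ring
    rw [e]
    exact h.add _ hc
  have h3 : (4 * (v ^ 2 * F)).natDegree = 0 := by
    apply down
    have e : em F (4 * (v ^ 2 * F)) =
        ((em F u + em F v * yy F) - conj F (em F u + em F v * yy F)) *
          ((em F u + em F v * yy F) - conj F (em F u + em F v * yy F)) := by
      have hy := yy_sq F
      rw [map_mul, map_ofNat, map_mul, map_pow, ← hy, map_add, map_mul, conj_em, conj_em,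
        conj_yy]
      ring
    rw [e]
    exact (h.sub _ hc).mul _ (h.sub _ hc)
  have h4 : (4 : K[X]) = C (4 : K) := (C_ofNat 4).symm
  have h5 : (2 : K[X]) = C (2 : K) := (C_ofNat 2).symm
  have hF : F ≠ 0 := by rintro rfl; simp at hp
  have hv : v = 0 := by
    by_contra hv
    rw [h4, natDegree_C_mul (by norm_num), natDegree_mul (pow_ne_zero 2 hv) hF,
      natDegree_pow] at h3
    omega
  have hu : u.natDegree = 0 := by
    rwa [h5, natDegree_C_mul (by norm_num)] at h2
  refine ⟨u.coeff 0, ?_⟩
  rw [hv, ← eq_C_of_natDegree_eq_zero hu]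
  simp

/-- Proof: let `F₀ = ι(K)` (`RingHom.fieldRange`); `Nc.place_exists`: a transcendental element is not in
all places, so `f` is algebraic over `F₀`. Write `f = P + Q y` with `P, Q ∈ K(x)` (the fraction field of
the image of `K[x]`; `rep` and norms); the conjugate `P - Q y` is algebraic too, so `P` and `Q² F` are
algebraic over `K` and in `K(x)`, so constant; if `Q ≠ 0` then `F` is a constant times the square of a
rational function, which is impossible for a squarefree polynomial of positive degree. -/
theorem const_of_places {K : Type} [Field K] [CharZero K] {F : K[X]} (hs : Squarefree F)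
    (hp : 0 < F.natDegree) (E : Type) [Field E] [Algebra (QR F) E] [IsFractionRing (QR F) E]
    (f : E) (hf : ∀ V : Place ((algebraMap (QR F) E).comp ((em F).comp C)), f ∈ V.1) :
    ∃ k : K, algebraMap (QR F) E (em F (C k)) = f := by
  set ι : K →+* E := (algebraMap (QR F) E).comp ((em F).comp C) with hι
  have hE : CharZero E := charZero_of_injective_ringHom ι.injective
  have halg : IsAlgebraic ι.fieldRange f := by
    by_contra hn
    obtain ⟨V, hV⟩ := Nc.place_exists (F := ι.fieldRange) (f := f) hn
    exact hV (hf ⟨V.1, V.2.1, fun k => V.2.2 (ι.mem_fieldRange.mpr ⟨k, rfl⟩)⟩)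
  obtain ⟨p, hp1, hp2⟩ := halg.isIntegral
  -- the same polynomial over `K`
  let e : K →+* ι.fieldRange := ι.rangeRestrictField
  have he : Function.Bijective e :=
    ⟨e.injective, fun x => by
      obtain ⟨k, hk⟩ := ι.mem_fieldRange.mp x.2
      exact ⟨k, Subtype.ext hk⟩⟩
  let e' : K ≃+* ι.fieldRange := RingEquiv.ofBijective e he
  have hcomp : ι.comp (e'.symm : ι.fieldRange →+* K) = algebraMap ι.fieldRange E := by
    ext x
    obtain ⟨k, rfl⟩ := e'.surjective x
    simp only [RingHom.comp_apply, RingEquiv.coe_toRingHom, RingEquiv.symm_apply_apply]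
    rfl
  have hq1 : (p.map (e'.symm : ι.fieldRange →+* K)).Monic := hp1.map _
  have hq2 : (p.map (e'.symm : ι.fieldRange →+* K)).eval₂ ι f = 0 := by
    rw [eval₂_map, hcomp]
    exact hp2
  have hK2 : IsUnit (2 : K[X]) := by
    have h1 : (2 : K[X]) = C (2 : K) := (C_ofNat 2).symm
    rw [h1, isUnit_C]
    exact IsUnit.mk0 _ two_ne_zero
  have hsq : ¬ IsSquare F := not_isSquare hs hp
  have hdom : IsDomain (QR F) := isDomain_QR F hsq
  have hic : IsIntegrallyClosed (QR F) := isIntegrallyClosed_QR hK2 hs hsq
  have hint : IsIntegral (QR F) f := by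
    refine ⟨(p.map (e'.symm : ι.fieldRange →+* K)).map ((em F).comp C), hq1.map _, ?_⟩
    rw [eval₂_map]
    exact hq2
  obtain ⟨r, hr⟩ := IsIntegrallyClosed.isIntegral_iff.mp hint
  have hr1 : ((em F).comp C).IsIntegralElem r := by
    refine ⟨p.map (e'.symm : ι.fieldRange →+* K), hq1, ?_⟩
    apply IsFractionRing.injective (QR F) E
    rw [hom_eval₂, map_zero, hr]
    exact hq2
  obtain ⟨k, hk⟩ := ker_int hp hr1
  exact ⟨k, by rw [hk, hr]⟩

end Pool.Agent.Lib.MP_1a0ddd_nt.Cpl
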