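import Pool.Agent.Lib.MP_1a0ddd_nt.Cpl.Defs
import Pool.Agent.Lib.MP_1a0ddd_nt.Hyp.Ord

/-! Places and their order functions. -/

set_option autoImplicit false

namespace Pool.Agent.Lib.MP_1a0ddd_nt.Cpl

open IsDedekindDomain Module Hyp

/-- `ν` is the normalized order function of the valuation ring `V` -/
structure IsOrd {E : Type} [Field E] (V : ValuationSubring E) (ν : Additive Eˣ →ₗ[ℤ] ℤ) :
    Prop where
  one : ∃ ϖ : Additive Eˣ, ν ϖ = 1
  mem : ∀ x : Eˣ, (x : E) ∈ V ↔ 0 ≤ ν (Additive.ofMul x)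

variable {E : Type} [Field E]

theorem isOrd_inj {V W : ValuationSubring E} {ν : Additive Eˣ →ₗ[ℤ] ℤ} (h : IsOrd V ν)
    (h' : IsOrd W ν) : V = W := by
  ext x
  by_cases hx : x = 0
  · rw [hx]
    exact ⟨fun _ => W.zero_mem, fun _ => V.zero_mem⟩
  · exact (h.mem (Units.mk0 x hx)).trans (h'.mem (Units.mk0 x hx)).symm

private theorem isOrd_zero {V : ValuationSubring E} {ν ν' : Additive Eˣ →ₗ[ℤ] ℤ} (h : IsOrd V ν)
    (h' : IsOrd V ν') {x : Additive Eˣ} (hx : ν x = 0) : ν' x = 0 := by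
  have h1 : 0 ≤ ν' x := (h'.mem (Additive.toMul x)).1 ((h.mem (Additive.toMul x)).2 (by
    rw [ofMul_toMul, hx]))
  have h2 : 0 ≤ ν' (-x) := (h'.mem (Additive.toMul (-x))).1 ((h.mem (Additive.toMul (-x))).2 (by
    rw [ofMul_toMul, map_neg, hx, neg_zero]))
  rw [map_neg] at h2
  omega

/-- two surjective homomorphisms to `ℤ` with the same nonnegative elements are equal -/
theorem isOrd_unique {V : ValuationSubring E} {ν ν' : Additive Eˣ →ₗ[ℤ] ℤ} (h : IsOrd V ν)
    (h' : IsOrd V ν') : ν = ν' := by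
  obtain ⟨p, hp⟩ := h.one
  obtain ⟨p', hp'⟩ := h'.one
  have key : ∀ x, ν' x = ν x * ν' p := by
    intro x
    have h1 : ν (x - ν x • p) = 0 := by
      rw [map_sub, map_smul, hp]
      simp
    have h2 := isOrd_zero h h' h1
    rw [map_sub, map_smul, smul_eq_mul] at h2
    linarith
  have h1 := key p'
  rw [hp'] at h1
  have h2 : 0 ≤ ν' p := (h'.mem (Additive.toMul p)).1 ((h.mem (Additive.toMul p)).2 (by
    rw [ofMul_toMul, hp]
    norm_num))
  have h3 : ν' p = 1 := by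
    have h4 : ν' p ∣ 1 := ⟨ν p', by rw [mul_comm]; exact h1⟩
    exact Int.eq_one_of_dvd_one h2 h4
  ext x
  rw [key x, h3, mul_one]

private theorem mem_units {V : ValuationSubring E} {ν : Additive Eˣ →ₗ[ℤ] ℤ} (h : IsOrd V ν)
    (x : Eˣ) : (x : E) ∈ V.nonunits ↔ 0 < ν (Additive.ofMul x) := by
  rw [ValuationSubring.mem_nonunits_iff, ← not_le, Valuation.one_le_val_iff _ x.ne_zero,
    ValuationSubring.valuation_le_one_iff, ← Units.val_inv_eq_inv_val, h.mem x⁻¹, ofMul_inv,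
    map_neg]
  omega

private theorem mem_unitGroup {V : ValuationSubring E} {ν : Additive Eˣ →ₗ[ℤ] ℤ} (h : IsOrd V ν)
    (x : Eˣ) : x ∈ V.unitGroup ↔ ν (Additive.ofMul x) = 0 := by
  have h1 := mem_units h x
  have h2 := h.mem x
  rw [ValuationSubring.mem_nonunits_iff] at h1
  rw [← ValuationSubring.valuation_le_one_iff] at h2
  rw [ValuationSubring.mem_unitGroup_iff]
  constructor
  · intro h3
    have h4 := h2.1 h3.le
    have h5 : ¬ (0 < ν (Additive.ofMul x)) := fun h6 => (h1.2 h6).ne h3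
    omega
  · intro h3
    refine le_antisymm (h2.2 h3.ge) (not_lt.1 fun h4 => ?_)
    have h5 := h1.1 h4
    omega

/-- the divisor of `f` in terms of the order functions -/
theorem isDiv_iff {K : Type} [Field K] (ι : K →+* E) (ν : Place ι → Additive Eˣ →ₗ[ℤ] ℤ)
    (hν : ∀ V, IsOrd V.1 (ν V)) (f : Eˣ) (D : Place ι →₀ ℤ) :
    IsDiv ι (f : E) D ↔ ∀ V, D V = ν V (Additive.ofMul f) := by
  have hd : ∀ (V : Place ι) (x p : Eˣ), ((x : E) / (p : E) ∈ V.1 ↔
      ν V (Additive.ofMul p) ≤ ν V (Additive.ofMul x)) := by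
    intro V x p
    have e : (x : E) / (p : E) = ((x / p : Eˣ) : E) := by rw [Units.val_div_eq_div_val]
    rw [e, (hν V).mem, ofMul_div, map_sub]
    omega
  have hz : ∀ (V : Place ι) (w p : Eˣ) (k : ℤ), ν V (Additive.ofMul (w * p ^ k)) =
      ν V (Additive.ofMul w) + k * ν V (Additive.ofMul p) := by
    intro V w p k
    rw [ofMul_mul, ofMul_zpow, map_add, map_smul, smul_eq_mul]
  constructor
  · intro h V
    obtain ⟨ϖ, h1, w, hw, hf⟩ := h V
    have h0 : ϖ ≠ 0 := by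
      rintro rfl
      have h2 := (h1 ((1 : Eˣ) : E)).2 (by rw [div_zero]; exact V.1.zero_mem)
      rw [mem_units (hν V), ofMul_one, map_zero] at h2
      exact lt_irrefl _ h2
    obtain ⟨p, rfl⟩ : ∃ p : Eˣ, (p : E) = ϖ := ⟨Units.mk0 ϖ h0, rfl⟩
    have h3 : ∀ x : Eˣ, 0 < ν V (Additive.ofMul x) ↔
        ν V (Additive.ofMul p) ≤ ν V (Additive.ofMul x) := by
      intro x
      rw [← mem_units (hν V), h1, hd]
    have h4 := (h3 p).2 le_rfl
    obtain ⟨y, hy⟩ := (hν V).one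
    have h5 := (h3 (Additive.toMul y)).1 (by rw [ofMul_toMul, hy]; norm_num)
    rw [ofMul_toMul, hy] at h5
    have h6 : ν V (Additive.ofMul p) = 1 := by omega
    have h7 : f = w * p ^ D V := by
      apply Units.ext
      rw [hf, Units.val_mul, Units.val_zpow_eq_zpow_val]
    rw [h7, hz, h6, (mem_unitGroup (hν V) w).1 hw]
    ring
  · intro h V
    obtain ⟨y, hy⟩ := (hν V).one
    obtain ⟨p, rfl⟩ : ∃ p : Eˣ, Additive.ofMul p = y := ⟨Additive.toMul y, rfl⟩
    refine ⟨(p : E), fun x => ?_, f * p ^ (-(D V)), ?_, ?_⟩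
    · by_cases hx : x = 0
      · rw [hx, zero_div, ValuationSubring.mem_nonunits_iff, map_zero]
        exact ⟨fun _ => V.1.zero_mem, fun _ => zero_lt_one⟩
      · obtain ⟨u, rfl⟩ : ∃ u : Eˣ, (u : E) = x := ⟨Units.mk0 x hx, rfl⟩
        rw [mem_units (hν V), hd, hy]
        omega
    · rw [mem_unitGroup (hν V), hz, hy, ← h V]
      ring
    · rw [Units.val_mul, Units.val_zpow_eq_zpow_val, mul_assoc, ← zpow_add₀ p.ne_zero,
        neg_add_cancel, zpow_zero, mul_one]

end Pool.Agent.Lib.MP_1a0ddd_nt.Cpl
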