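import Pool.Agent.Lib.MP_1a0ddd_nt.Cpl.Defs
import Pool.Agent.Lib.MP_1a0ddd_nt.Quad.Ext2

/-! The chart at infinity `w² = s^(2g+2) F(1/s)`. -/

set_option autoImplicit false

namespace Pool.Agent.Lib.MP_1a0ddd_nt.Cpl

open Polynomial Quad

variable {K : Type} [Field K]

/-- `s^(2g+2) F(1/s)` -/
noncomputable def rev (F : K[X]) : K[X] := F.reflect (2 * ((F.natDegree + 1) / 2))

theorem rev_coeff_zero (F : K[X]) : (rev F).coeff 0 = topC F := by
  rw [rev, topC, coeff_reflect, revAt_zero]

/-- Proof: `X²` does not divide `rev F` because one of the coefficients of `F` at `2g+1`, `2g+2` is not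
zero; if `q² ∣ rev F`, `q` irreducible and not associated to `X`, then (`reflect_mul`) the square of
the polynomial `q.reverse` of the same degree divides `F`. -/
theorem rev_squarefree {F : K[X]} (hs : Squarefree F) (hp : 0 < F.natDegree) :
    Squarefree (rev F) := by
  obtain ⟨N, hN⟩ : ∃ N, N = 2 * ((F.natDegree + 1) / 2) := ⟨_, rfl⟩
  have hF0 : F ≠ 0 := hs.ne_zero
  have hdN : F.natDegree ≤ N := by omega
  have hNd : N ≤ F.natDegree + 1 := by omega
  have hr : rev F = F.reflect N := by rw [rev, hN]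
  have hrN : (rev F).natDegree ≤ N := by
    rw [hr]
    exact natDegree_reflect_le.trans (max_le le_rfl hdN)
  have hr0 : rev F ≠ 0 := by
    rw [hr, Ne, reflect_eq_zero_iff]
    exact hF0
  intro q hq
  obtain ⟨h, hh⟩ := hq
  have hq0 : q ≠ 0 := by
    rintro rfl
    rw [zero_mul, zero_mul] at hh
    exact hr0 hh
  have hh0 : h ≠ 0 := by
    rintro rfl
    rw [mul_zero] at hh
    exact hr0 hh
  obtain ⟨m, hm⟩ : ∃ m, m = q.natDegree := ⟨_, rfl⟩
  have hdeg : m + m + h.natDegree = (rev F).natDegree := by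
    rw [hh, natDegree_mul (mul_ne_zero hq0 hq0) hh0, natDegree_mul hq0 hq0, hm]
  have hF : F = reflect m q * reflect m q * reflect (N - (m + m)) h := by
    rw [← reflect_mul q q hm.ge hm.ge, ← reflect_mul (q * q) h
      (by rw [natDegree_mul hq0 hq0, hm]) (by omega), ← hh,
      show m + m + (N - (m + m)) = N by omega, hr, reflect_reflect]
  have hu : IsUnit (reflect m q) := hs _ ⟨_, hF⟩
  obtain ⟨c, hc, hcq⟩ := Polynomial.isUnit_iff.1 hu
  have hqc : q = C c * X ^ m := by
    rw [← reflect_reflect (N := m) (p := q), ← hcq, reflect_C]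
  have hdiv : (X : K[X]) ^ (m + m) ∣ rev F := by
    refine ⟨C c * C c * h, ?_⟩
    rw [hh, hqc]
    ring
  have hm0 : m = 0 := by
    by_contra hm1
    have h0 := (X_pow_dvd_iff.1 hdiv) 0 (by omega)
    have h1 := (X_pow_dvd_iff.1 hdiv) 1 (by omega)
    rw [hr, coeff_reflect, revAt_zero] at h0
    rw [hr, coeff_reflect, revAt_le (by omega)] at h1
    have hl : F.coeff F.natDegree ≠ 0 := by
      rw [coeff_natDegree]
      exact leadingCoeff_ne_zero.2 hF0
    rcases (by omega : F.natDegree = N ∨ F.natDegree = N - 1) with h2 | h2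
    · exact hl (by rw [h2]; exact h0)
    · exact hl (by rw [h2]; exact h1)
  rw [hqc, hm0, pow_zero, mul_one]
  exact isUnit_C.2 hc

/-- `X²` does not divide `F` -/
theorem rev_natDegree_pos {F : K[X]} (hs : Squarefree F) (hp : 0 < F.natDegree) :
    0 < (rev F).natDegree := by
  by_contra h0
  have h1 : (rev F).natDegree = 0 := by omega
  have hF0 : F ≠ 0 := hs.ne_zero
  have h2 := eq_C_of_natDegree_eq_zero h1
  have h3 : F = C ((rev F).coeff 0) * X ^ (2 * ((F.natDegree + 1) / 2)) := by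
    conv_lhs => rw [← reflect_reflect (N := 2 * ((F.natDegree + 1) / 2)) (p := F)]
    change reflect (2 * ((F.natDegree + 1) / 2)) (rev F) = _
    conv_lhs => rw [h2]
    rw [reflect_C]
  have h4 : (X : K[X]) * X ∣ F := by
    obtain ⟨k, hk⟩ : ∃ k, 2 * ((F.natDegree + 1) / 2) = k + 2 :=
      ⟨2 * ((F.natDegree + 1) / 2) - 2, by omega⟩
    rw [hk] at h3
    obtain ⟨c, hc⟩ : ∃ c : K, F = C c * X ^ (k + 2) := ⟨_, h3⟩
    refine ⟨C c * X ^ k, ?_⟩
    rw [hc]
    ring
  exact not_isUnit_X (hs _ h4)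

/-- a squarefree polynomial of positive degree is not a square -/
theorem not_isSquare {F : K[X]} (hs : Squarefree F) (hp : 0 < F.natDegree) : ¬ IsSquare F := by
  rintro ⟨r, hr⟩
  have h1 : IsUnit r := hs r ⟨1, by rw [mul_one]; exact hr⟩
  have h2 := natDegree_eq_zero_of_isUnit h1
  rw [hr] at hp
  have h3 := natDegree_mul_le (p := r) (q := r)
  omega

end Pool.Agent.Lib.MP_1a0ddd_nt.Cpl
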