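import Pool.Agent.Lib.MP_1a0ddd_nt.Cpl.Cmp
import Pool.Agent.Lib.MP_1a0ddd_nt.Cpl.Inf
import Pool.Agent.Lib.MP_1a0ddd_nt.Cpl.Ker
import Pool.Agent.Lib.MP_1a0ddd_nt.Hyp.HDef

/-! The rank of the complete curve. -/

set_option autoImplicit false

namespace Pool.Agent.Lib.MP_1a0ddd_nt.Cpl

open Polynomial Quad IsDedekindDomain Module

/-- units modulo a subgroup, written additively -/
private theorem rnk_quot {G : Type} [CommGroup G] (U : Subgroup G) :
    Nonempty ((Additive G ⧸ AddSubgroup.toIntSubmodule (Subgroup.toAddSubgroup U)) ≃ₗ[ℤ]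
      Additive (G ⧸ U)) := by
  let f : Additive G →ₗ[ℤ] Additive (G ⧸ U) :=
    (MonoidHom.toAdditive (QuotientGroup.mk' U)).toIntLinearMap
  have hf : Function.Surjective f := fun y => by
    obtain ⟨x, hx⟩ := QuotientGroup.mk'_surjective U (Additive.toMul y)
    exact ⟨Additive.ofMul x, hx⟩
  have hk : AddSubgroup.toIntSubmodule (Subgroup.toAddSubgroup U) = LinearMap.ker f := by
    ext x
    rw [LinearMap.mem_ker]
    exact (QuotientGroup.eq_one_iff (N := U) (Additive.toMul x)).symm
  exact ⟨(Submodule.quotEquivOfEq _ _ hk).trans (f.quotKerEquivOfSurjective hf)⟩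

/-- from the class group and the units of the affine curve to the orders of its primes -/
private theorem rnk_chi {K : Type} [Field K] (F : K[X]) [hD : IsDedekindDomain (QR F)]
    (E : Type) [Field E] [Algebra (QR F) E] [IsFractionRing (QR F) E] (n : ℤ)
    (h : Hyp.CurveRank F n) :
    Hyp.Chi (Hyp.ordZ (QR F) E) (cstE (io (F := F) E)) n := by
  obtain ⟨-, h1, h2, h3⟩ := h
  refine (Hyp.chi_of_class (QR F) E (cstE (io (F := F) E))
    (Units.map (curveConst F : K →* CurveRing F)).range (fun q => ?_) n).2 ?_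
  · constructor
    · rintro ⟨k, hk⟩
      refine ⟨Units.map (curveConst F : K →* CurveRing F) k, ⟨k, rfl⟩, ?_⟩
      have e := congrArg (fun u : Eˣ => (u : E)) hk
      exact Units.ext e
    · rintro ⟨u, ⟨k, rfl⟩, rfl⟩
      exact ⟨k, rfl⟩
  · let e : Additive (ClassGroup (QR F)) ≃ₗ[ℤ] Additive (CommRing.Pic (QR F)) :=
      (MulEquiv.toAdditive (ClassGroup.equivPic (QR F))).toIntLinearEquiv
    obtain ⟨e2⟩ : Nonempty ((Additive (CurveRing F)ˣ ⧸ AddSubgroup.toIntSubmodule
        (Subgroup.toAddSubgroup (Units.map (curveConst F : K →* CurveRing F)).range)) ≃ₗ[ℤ]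
          Additive (Hyp.UnitsMod F)) :=
      rnk_quot (G := (CurveRing F)ˣ) (Units.map (curveConst F : K →* CurveRing F)).range
    have g1 : Module.Finite ℤ (Additive (CommRing.Pic (QR F))) := h1
    have g2 : Module.Finite ℤ (Additive (ClassGroup (QR F))) := Module.Finite.equiv e.symm
    have g3 : Module.Finite ℤ (Additive (CurveRing F)ˣ ⧸ AddSubgroup.toIntSubmodule
        (Subgroup.toAddSubgroup (Units.map (curveConst F : K →* CurveRing F)).range)) :=
      Module.Finite.equiv e2.symm
    refine ⟨g2, g3, ?_⟩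
    have g4 : (finrank ℤ (Additive (ClassGroup (QR F))) : ℤ) -
        finrank ℤ (Additive (CurveRing F)ˣ ⧸ AddSubgroup.toIntSubmodule
          (Subgroup.toAddSubgroup (Units.map (curveConst F : K →* CurveRing F)).range)) = n := by
      rw [e.finrank_eq, e2.finrank_eq]
      exact h3
    exact g4

/-- a function all of whose orders are zero is constant -/
private theorem rnk_ker {K : Type} [Field K] [CharZero K] {F : K[X]} (hs : Squarefree F)
    (hp : 0 < F.natDegree) (E : Type) [Field E] [Algebra (QR F) E] [IsFractionRing (QR F) E]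
    (ν : Place (io (F := F) E) → Additive Eˣ →ₗ[ℤ] ℤ) (hν : ∀ V, IsOrd V.1 (ν V)) (f : Eˣ)
    (hf : ∀ V : Place (io (F := F) E), ν V (Additive.ofMul f) = 0) :
    Additive.ofMul f ∈ cstE (io (F := F) E) := by
  obtain ⟨k, hk⟩ := const_of_places hs hp E (f : E) fun V => ((hν V).mem f).2 (hf V).ge
  have hk0 : k ≠ 0 := by
    rintro rfl
    rw [map_zero, map_zero, map_zero] at hk
    exact f.ne_zero hk.symm
  exact ⟨Units.mk0 k hk0, Units.ext hk⟩

open Classical in
private theorem rnk_core {K : Type} [Field K] [CharZero K] {F : K[X]} (hs : Squarefree F)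
    (hp : 0 < F.natDegree) {n : ℤ} (h : Hyp.CurveRank F n) [hD : IsDedekindDomain (QR F)]
    (E : Type) [Field E] [Algebra (QR F) E] [IsFractionRing (QR F) E] :
    Module.Finite ℤ (ClGp (io (F := F) E)) ∧ (finrank ℤ (ClGp (io (F := F) E)) : ℤ) =
      n + (if topC F ≠ 0 ∧ IsSquare (topC F) then 1 else 0) + 1 := by
  have h2 : (2 : K) ≠ 0 := two_ne_zero
  choose ν hν using fun V : Place (io (F := F) E) => places_ord E h2 hs hp V
  obtain ⟨hfin, hcard⟩ := places_inf (F := F) E h2 hs hp
  have hχ := chi_complete (QR F) ((em F).comp C) n (rnk_chi F E n h) ν hν hfin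
  have h4 := clGp_rank (io (F := F) E) ν hν _ hχ (rnk_ker hs hp E ν hν)
  refine ⟨h4.1, h4.2.trans ?_⟩
  rw [hcard]
  split_ifs <;> push_cast <;> ring

open Classical in
/-- Proof: `CurveRing F` is `QR F` and `curveConst F` is `(em F).comp C` by definition. From
`Hyp.CurveRank` (`Pic` of a domain is the class group: `ClassGroup.equivPic` or the way it was used in
`Hyp/Alg.lean`) and `Hyp.chi_of_class` (`U` = the constants) one gets
`Chi (ordZ A E) (cstE ι) n`; then `chi_complete`, `places_inf`, `places_ord`, and `clGp_rank` with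
`const_of_places` (if all orders of `f` are zero then `f` is in all places). -/
theorem rank_complete {K : Type} [Field K] [CharZero K] {F : K[X]} (hs : Squarefree F)
    (hp : 0 < F.natDegree) {n : ℤ} (h : Hyp.CurveRank F n) :
    Cpl.CurveRank F (n + if topC F ≠ 0 ∧ IsSquare (topC F) then 1 else 0) := by
  refine ⟨h.1, ?_⟩
  intro E i1 i2 i3
  exact @rnk_core K _ _ F hs hp n h h.1 E i1 i2 i3

end Pool.Agent.Lib.MP_1a0ddd_nt.Cpl
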